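import Mathlib

set_option autoImplicit false

namespace Pool.Agent.Lib.MP_f7bfdf_al

/-- The value of a letter. -/
def ltr {X Q : Type*} [Group Q] (f : X → Q) (c : X × Bool) : Q := cond c.2 (f c.1) (f c.1)⁻¹

/-- The value of a word. -/
def wd {X Q : Type*} [Group Q] (f : X → Q) (u : List (X × Bool)) : Q := (u.map (ltr f)).prod

/-- The inverse letter. -/
def linv {X : Type*} (c : X × Bool) : X × Bool := (c.1, !c.2)

@[simp] theorem linv_linv {X : Type*} (c : X × Bool) : linv (linv c) = c := by
  simp [linv]

theorem linv_ne {X : Type*} (c : X × Bool) : c ≠ linv c := by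
  rcases c with ⟨x, b⟩
  cases b <;> simp [linv]

theorem ltr_linv {X Q : Type*} [Group Q] (f : X → Q) (c : X × Bool) :
    ltr f (linv c) = (ltr f c)⁻¹ := by
  rcases c with ⟨x, b⟩
  cases b <;> simp [linv, ltr]

@[simp] theorem wd_nil {X Q : Type*} [Group Q] (f : X → Q) : wd f [] = 1 := rfl

theorem wd_cons {X Q : Type*} [Group Q] (f : X → Q) (c : X × Bool) (u : List (X × Bool)) :
    wd f (c :: u) = ltr f c * wd f u := by simp [wd]

theorem wd_append {X Q : Type*} [Group Q] (f : X → Q) (u v : List (X × Bool)) :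
    wd f (u ++ v) = wd f u * wd f v := by simp [wd]

theorem map_ltr {X Q R : Type*} [Group Q] [Group R] (φ : Q →* R) (f : X → Q) (c : X × Bool) :
    φ (ltr f c) = ltr (φ ∘ f) c := by
  rcases c with ⟨x, b⟩
  cases b <;> simp [ltr]

theorem map_wd {X Q R : Type*} [Group Q] [Group R] (φ : Q →* R) (f : X → Q)
    (u : List (X × Bool)) : φ (wd f u) = wd (φ ∘ f) u := by
  induction u with
  | nil => simp
  | cons c u ih => rw [wd_cons, wd_cons, map_mul, ih, map_ltr]

theorem exists_wd {X F : Type*} [Group F] (b : FreeGroupBasis X F) (x : F) :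
    ∃ u, wd b u = x := by
  obtain ⟨y, rfl⟩ := b.repr.symm.surjective x
  obtain ⟨u⟩ := y
  refine ⟨u, ?_⟩
  have h1 : (b.repr.symm : FreeGroup X →* F) = FreeGroup.lift b := by
    refine FreeGroup.ext_hom _ _ fun i => ?_
    rw [FreeGroup.lift_apply_of]
    rfl
  have h2 := DFunLike.congr_fun h1 (FreeGroup.mk u)
  rw [FreeGroup.lift_mk] at h2
  exact h2.symm

theorem lift_wd {X F Q : Type*} [Group F] [Group Q] (b : FreeGroupBasis X F) (τ : X → Q)
    (u : List (X × Bool)) : b.lift τ (wd b u) = wd τ u := by
  rw [map_wd]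
  congr 1
  ext x
  simp

section Completion

variable {X F Ω : Type*} [Group F] [MulAction F Ω] (f : X → F) (V : Set Ω)

/-- Valid addresses in the free completion of the partial action on `V`. -/
def Valid (v : Ω) : List (X × Bool) → Prop
  | [] => True
  | [c] => ¬ (v ∈ V ∧ ltr f c • v ∈ V)
  | c :: d :: w => d ≠ linv c ∧ Valid v (d :: w)

open Classical in
/-- One step in the free completion. -/
noncomputable def stp (c : X × Bool) : Ω × List (X × Bool) → Ω × List (X × Bool)
  | (v, []) => if v ∈ V ∧ ltr f c • v ∈ V then (ltr f c • v, []) else (v, [c])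
  | (v, d :: w) => if d = linv c then (v, w) else (v, c :: d :: w)

theorem Valid.tail {v : Ω} {c : X × Bool} {w : List (X × Bool)} (h : Valid f V v (c :: w)) :
    Valid f V v w := by
  cases w with
  | nil => trivial
  | cons d w => exact h.2

theorem valid_stp (c : X × Bool) (p : Ω × List (X × Bool)) (hp : Valid f V p.1 p.2) :
    Valid f V (stp f V c p).1 (stp f V c p).2 := by
  rcases p with ⟨v, _ | ⟨d, w⟩⟩
  · simp only [stp]
    split_ifs with h
    · trivial
    · exact h
  · simp only [stp]
    split_ifs with h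
    · exact Valid.tail f V hp
    · exact ⟨h, hp⟩

theorem stp_linv (c : X × Bool) (p : Ω × List (X × Bool)) (hp : Valid f V p.1 p.2) :
    stp f V (linv c) (stp f V c p) = p := by
  rcases p with ⟨v, _ | ⟨d, w⟩⟩
  · simp only [stp]
    split_ifs with h
    · have h' : ltr f (linv c) • ltr f c • v = v := by rw [ltr_linv, inv_smul_smul]
      simp only [h']
      rw [if_pos ⟨h.2, by rw [h']; exact h.1⟩]
    · simp
  · simp only [stp]
    split_ifs with h
    · subst h
      cases w with
      | nil =>
        simp only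
        rw [if_neg hp]
      | cons e w =>
        simp only
        rw [if_neg hp.1]
    · simp

/-- Points of the free completion. -/
def Pt : Type _ := {p : Ω × List (X × Bool) // Valid f V p.1 p.2}

/-- The permutations of the free completion. -/
noncomputable def sig (x : X) : Equiv.Perm (Pt f V) where
  toFun p := ⟨stp f V (x, true) p.1, valid_stp f V _ _ p.2⟩
  invFun p := ⟨stp f V (x, false) p.1, valid_stp f V _ _ p.2⟩
  left_inv p := Subtype.ext (stp_linv f V (x, true) p.1 p.2)
  right_inv p := Subtype.ext (stp_linv f V (x, false) p.1 p.2)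

theorem ltr_sig (c : X × Bool) (p : Pt f V) : (ltr (sig f V) c p).1 = stp f V c p.1 := by
  rcases c with ⟨x, b⟩
  cases b <;> rfl

/-- The projection of the free completion to the original action. -/
def proj (p : Pt f V) : Ω := wd f p.1.2 • p.1.1

theorem proj_ltr (c : X × Bool) (p : Pt f V) :
    proj f V (ltr (sig f V) c p) = ltr f c • proj f V p := by
  simp only [proj, ltr_sig]
  rcases p with ⟨⟨v, _ | ⟨d, w⟩⟩, hp⟩
  · simp only [stp]
    split_ifs with h
    · simp
    · simp [wd_cons]
  · simp only [stp]
    split_ifs with h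
    · subst h
      simp [wd_cons, ltr_linv, mul_smul]
    · simp [wd_cons, mul_smul]

theorem proj_wd (u : List (X × Bool)) (p : Pt f V) :
    proj f V (wd (sig f V) u p) = wd f u • proj f V p := by
  induction u with
  | nil => simp
  | cons c u ih => rw [wd_cons, wd_cons, Equiv.Perm.mul_apply, proj_ltr, ih, mul_smul]

theorem fst_mem_ltr (c : X × Bool) (p : Pt f V) (hp : p.1.1 ∈ V) :
    (ltr (sig f V) c p).1.1 ∈ V := by
  rw [ltr_sig]
  rcases p with ⟨⟨v, _ | ⟨d, w⟩⟩, hp'⟩
  · simp only [stp]
    split_ifs with h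
    · exact h.2
    · exact hp
  · simp only [stp]
    split_ifs with h
    · exact hp
    · exact hp

theorem fst_mem_wd (u : List (X × Bool)) (p : Pt f V) (hp : p.1.1 ∈ V) :
    (wd (sig f V) u p).1.1 ∈ V := by
  induction u with
  | nil => exact hp
  | cons c u ih => rw [wd_cons, Equiv.Perm.mul_apply]; exact fst_mem_ltr f V c _ ih

theorem length_ltr (c : X × Bool) (p : Pt f V) :
    (ltr (sig f V) c p).1.2.length ≤ p.1.2.length + 1 := by
  rw [ltr_sig]
  rcases p with ⟨⟨v, _ | ⟨d, w⟩⟩, hp'⟩
  · simp only [stp]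
    split_ifs with h <;> simp
  · simp only [stp]
    split_ifs with h
    · simp only [List.length_cons]; omega
    · simp

theorem length_wd (u : List (X × Bool)) (p : Pt f V) :
    (wd (sig f V) u p).1.2.length ≤ p.1.2.length + u.length := by
  induction u with
  | nil => simp
  | cons c u ih =>
    rw [wd_cons, Equiv.Perm.mul_apply]
    have := length_ltr f V c (wd (sig f V) u p)
    simp only [List.length_cons]
    omega

/-- The base points. -/
def base (v : Ω) : Pt f V := ⟨(v, []), trivial⟩

theorem proj_base (v : Ω) : proj f V (base f V v) = v := by simp [proj, base]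

theorem wd_base (v : Ω) (u : List (X × Bool)) (h : ∀ u', u' <:+ u → wd f u' • v ∈ V) :
    wd (sig f V) u (base f V v) = base f V (wd f u • v) := by
  induction u with
  | nil => simp
  | cons c u ih =>
    rw [wd_cons, Equiv.Perm.mul_apply, ih (fun u' hu' => h u' (hu'.trans (List.suffix_cons c u)))]
    refine Subtype.ext ?_
    rw [ltr_sig]
    have h1 := h u (List.suffix_cons c u)
    have h2 := h (c :: u) List.suffix_rfl
    rw [wd_cons, mul_smul] at h2
    simp only [base, stp]
    rw [if_pos ⟨h1, h2⟩, wd_cons, mul_smul]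

theorem ltr_push (c d : X × Bool) (p : Pt f V) (w : List (X × Bool)) (hp : p.1.2 = d :: w)
    (hd : d ≠ linv c) : (ltr (sig f V) c p).1 = (p.1.1, c :: p.1.2) := by
  rw [ltr_sig]
  rcases p with ⟨⟨v, w'⟩, hp'⟩
  simp only at hp
  subst hp
  simp only [stp]
  rw [if_neg hd]

end Completion

end Pool.Agent.Lib.MP_f7bfdf_al
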