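import Mathlib
import Pool.Agent.Lib.MP_f7bfdf_al.Completion

set_option autoImplicit false

open scoped Pointwise

namespace Pool.Agent.Lib.MP_f7bfdf_al

universe u

/-- Neumann's separation lemma. -/
theorem exists_avoid {F Ω : Type*} [Group F] [MulAction F Ω] (A V : Finset Ω)
    (hA : ∀ a ∈ A, (MulAction.stabilizer F a).index = 0) : ∃ h : F, ∀ a ∈ A, h • a ∉ V := by
  classical
  by_contra hcon
  push Not at hcon
  let s : Finset (Ω × Ω) := (A ×ˢ V).filter fun p => ∃ k : F, k • p.1 = p.2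
  let γ : Ω × Ω → F := fun p => if h : ∃ k : F, k • p.1 = p.2 then h.choose else 1
  have hcov : ⋃ i ∈ s, γ i • ((MulAction.stabilizer F i.1 : Subgroup F) : Set F) = Set.univ := by
    refine Set.eq_univ_of_forall fun h => ?_
    obtain ⟨a, ha, hv⟩ := hcon h
    have hex : ∃ k : F, k • (a, h • a).1 = (a, h • a).2 := ⟨h, rfl⟩
    refine Set.mem_iUnion₂.mpr ⟨(a, h • a), ?_, ?_⟩
    · exact Finset.mem_filter.mpr ⟨Finset.mem_product.mpr ⟨ha, hv⟩, hex⟩
    · rw [mem_leftCoset_iff]
      have h1 : γ (a, h • a) • a = h • a := by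
        simp only [γ, dif_pos hex]
        exact hex.choose_spec
      show (γ (a, h • a))⁻¹ * h ∈ MulAction.stabilizer F a
      rw [MulAction.mem_stabilizer_iff, mul_smul, inv_smul_eq_iff, h1]
  obtain ⟨k, hk, hfin⟩ := Subgroup.exists_finiteIndex_of_leftCoset_cover hcov
  exact hfin.index_ne_zero (hA k.1 (Finset.mem_product.mp (Finset.mem_filter.mp hk).1).1)

/-- Addresses in which the marker letter occurs deeper than `n`. -/
def Deep {L : Type*} (β : L) (n : ℕ) (w : List L) : Prop :=
  ∃ w₁ w₂, w = w₁ ++ β :: w₂ ∧ n ≤ w₂.length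

theorem not_deep_of_length {L : Type*} {β : L} {n : ℕ} {w : List L} (h : w.length ≤ n) :
    ¬ Deep β n w := by
  rintro ⟨w₁, w₂, rfl, h2⟩
  simp only [List.length_append, List.length_cons] at h
  omega

theorem not_deep_cons {L : Type*} {β d : L} {n : ℕ} {w : List L} (hd : d ≠ β)
    (h : ¬ Deep β n w) : ¬ Deep β n (d :: w) := by
  rintro ⟨w₁, w₂, h1, h2⟩
  cases w₁ with
  | nil => exact hd (List.cons.inj h1).1
  | cons e w₁ => exact h ⟨w₁, w₂, (List.cons.inj h1).2, h2⟩

theorem ltr_update_of_ne {X P : Type*} [DecidableEq X] (σ : X → Equiv.Perm P) (α : X)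
    (π : Equiv.Perm P) (c : X × Bool) (hc : c.1 ≠ α) :
    ltr (Function.update σ α (σ α * π)) c = ltr σ c := by
  simp [ltr, Function.update_of_ne hc]

theorem ltr_update_of_fixed {X P : Type*} [DecidableEq X] (σ : X → Equiv.Perm P) (α : X)
    (π : Equiv.Perm P) (c : X × Bool) (q : P) (h1 : π q = q)
    (h2 : π (ltr σ c q) = ltr σ c q) :
    ltr (Function.update σ α (σ α * π)) c q = ltr σ c q := by
  by_cases hc : c.1 = α
  · rcases c with ⟨x, b⟩
    simp only at hc
    subst hc
    cases b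
    · simp only [ltr, cond_false, Function.update_self, mul_inv_rev, Equiv.Perm.mul_apply] at h2 ⊢
      rw [Equiv.Perm.inv_eq_iff_eq]
      exact h2.symm
    · simp [ltr, h1]
  · rw [ltr_update_of_ne σ α π c hc]

theorem exists_letter {X : Type*} (a₁ a₂ : X) (h12 : a₁ ≠ a₂) (c₁ c₂ c₃ : X × Bool) :
    ∃ (d : X × Bool) (β : X), d.1 ≠ β ∧ c₁ ≠ linv d ∧ c₂ ≠ linv d ∧ c₃ ≠ linv d := by
  classical
  have hcard : ({c₁, c₂, c₃} : Finset (X × Bool)).card <
      (({a₁, a₂} : Finset X) ×ˢ (Finset.univ : Finset Bool)).card := by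
    rw [Finset.card_product, Finset.card_pair h12]
    exact lt_of_le_of_lt Finset.card_le_three (by simp)
  obtain ⟨e, he, hne⟩ := Finset.exists_mem_notMem_of_card_lt_card hcard
  simp only [Finset.mem_insert, Finset.mem_singleton, not_or] at hne
  have he1 := (Finset.mem_product.mp he).1
  simp only [Finset.mem_insert, Finset.mem_singleton] at he1
  have key : c₁ ≠ linv (linv e) ∧ c₂ ≠ linv (linv e) ∧ c₃ ≠ linv (linv e) := by
    rw [linv_linv]
    exact ⟨fun h => hne.1 h.symm, fun h => hne.2.1 h.symm, fun h => hne.2.2 h.symm⟩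
  rcases he1 with h | h
  · exact ⟨linv e, a₂, by simpa [linv, h] using h12, key⟩
  · exact ⟨linv e, a₁, by simpa [linv, h] using h12.symm, key⟩

/-- The successor step inside a nonabelian free group. -/
theorem step_free {X F : Type u} [Group F] (b : FreeGroupBasis X F) (a₁ a₂ : X) (h12 : a₁ ≠ a₂)
    (M : Subgroup F) (hM : M.FG) (hidx : M.index = 0) (g z : F) (hg : g ∉ M) :
    ∃ M' : Subgroup F, M ≤ M' ∧ M'.FG ∧ M'.index = 0 ∧ g ∉ M' ∧
      z ∈ Subgroup.closure (insert g (M' : Set F)) := by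
  classical
  by_cases hz : z ∈ M
  · exact ⟨M, le_rfl, hM, hidx, hg, Subgroup.subset_closure (Or.inr hz)⟩
  obtain ⟨S, hS⟩ := hM
  choose wo hwo using exists_wd b
  let x₀ : F ⧸ M := ((1 : F) : F ⧸ M)
  have hfix : ∀ a : F, a • x₀ = x₀ ↔ a ∈ M := by
    intro a
    show ((a * 1 : F) : F ⧸ M) = ((1 : F) : F ⧸ M) ↔ _
    rw [eq_comm, QuotientGroup.eq]
    simp
  let Vf : Finset (F ⧸ M) := insert x₀
    (S.biUnion fun m => (wo m).tails.toFinset.image fun u => wd b u • x₀)
  let V : Set (F ⧸ M) := Vf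
  have hx₀V : x₀ ∈ V := Finset.mem_insert_self _ _
  obtain ⟨h, hh⟩ := exists_avoid (F := F) {x₀, g • x₀, z • x₀} Vf (fun a _ => by
    rw [MulAction.index_stabilizer_of_transitive]
    exact hidx)
  let σ := sig (b : X → F) V
  let p₀ := base (b : X → F) V x₀
  let n₀ : ℕ := (wo h).length + (wo g).length + (wo z).length + S.sup fun m => (wo m).length
  -- the three points after the first phase
  have hpt : ∀ u : List (X × Bool), wd b u • x₀ ∉ Vf →
      ∃ c w, (wd σ u p₀).1.2 = c :: w := by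
    intro u hu
    rcases hw : (wd σ u p₀).1.2 with _ | ⟨c, w⟩
    · exfalso
      have h1 := proj_wd (b : X → F) V u p₀
      rw [proj_base] at h1
      have h2 := fst_mem_wd (b : X → F) V u p₀ hx₀V
      apply hu
      rw [← h1]
      show wd b (wd σ u p₀).1.2 • (wd σ u p₀).1.1 ∈ Vf
      rw [hw, wd_nil, one_smul]
      exact h2
    · exact ⟨c, w, rfl⟩
  have hW1 : wd b (wo h) • x₀ = h • x₀ := by rw [hwo]
  have hW2 : wd b (wo h ++ wo g) • x₀ = h • g • x₀ := by rw [wd_append, hwo, hwo, mul_smul]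
  have hW3 : wd b (wo h ++ wo z) • x₀ = h • z • x₀ := by rw [wd_append, hwo, hwo, mul_smul]
  obtain ⟨c₁, w₁, hc₁⟩ := hpt (wo h) (by rw [hW1]; exact hh _ (by simp))
  obtain ⟨c₂, w₂, hc₂⟩ := hpt (wo h ++ wo g) (by rw [hW2]; exact hh _ (by simp))
  obtain ⟨c₃, w₃, hc₃⟩ := hpt (wo h ++ wo z) (by rw [hW3]; exact hh _ (by simp))
  obtain ⟨d, β, hdβ, hd₁, hd₂, hd₃⟩ := exists_letter a₁ a₂ h12 c₁ c₂ c₃
  have hdβ' : d ≠ (β, true) := fun e => hdβ (congrArg Prod.fst e)
  -- the second phase
  have hrun2 : ∀ (u : List (X × Bool)) (c : X × Bool) (w : List (X × Bool)),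
      (wd σ u p₀).1.2 = c :: w → c ≠ linv d → ∀ j : ℕ,
      (wd σ (List.replicate j d ++ u) p₀).1 =
        ((wd σ u p₀).1.1, List.replicate j d ++ c :: w) := by
    intro u c w hu hc j
    induction j with
    | zero => simp [← hu]
    | succ j ih =>
      rw [List.replicate_succ, List.cons_append, wd_cons, Equiv.Perm.mul_apply]
      cases j with
      | zero =>
        rw [ltr_push (b : X → F) V d c _ w (by simpa using hu) hc, ih]
        simp
      | succ j =>
        rw [ltr_push (b : X → F) V d d _ (List.replicate j d ++ c :: w)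
          (by rw [ih]; simp [List.replicate_succ]) (linv_ne d), ih]
        simp
  -- the third phase
  have hrun3 : ∀ (u : List (X × Bool)) (c : X × Bool) (w : List (X × Bool)),
      (wd σ u p₀).1.2 = c :: w → c ≠ linv d → ∀ k : ℕ,
      (wd σ (List.replicate k (β, true) ++ (List.replicate (n₀ + 1) d ++ u)) p₀).1 =
        ((wd σ u p₀).1.1, List.replicate k (β, true) ++ (List.replicate (n₀ + 1) d ++ c :: w)) := by
    intro u c w hu hc k
    induction k with
    | zero => simpa using hrun2 u c w hu hc (n₀ + 1)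
    | succ k ih =>
      rw [List.replicate_succ (n := k), List.cons_append, wd_cons, Equiv.Perm.mul_apply]
      cases k with
      | zero =>
        rw [ltr_push (b : X → F) V (β, true) d _ (List.replicate n₀ d ++ c :: w)
          (by rw [ih]; simp [List.replicate_succ])
          (fun e => hdβ (congrArg Prod.fst e)), ih]
        simp
      | succ k =>
        rw [ltr_push (b : X → F) V (β, true) (β, true) _
          (List.replicate k (β, true) ++ (List.replicate (n₀ + 1) d ++ c :: w))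
          (by rw [ih]; simp [List.replicate_succ (n := k)]) (linv_ne _), ih]
        simp
  let L : List (X × Bool) := List.replicate 1 (β, true) ++ (List.replicate (n₀ + 1) d ++ wo h)
  let p₁ := wd σ L p₀
  let p₂ := wd σ (L ++ wo g) p₀
  let p₃ := wd σ (L ++ wo z) p₀
  have hp₁ : p₁.1.2 = (β, true) :: (List.replicate (n₀ + 1) d ++ c₁ :: w₁) := by
    simp only [p₁, L]
    rw [hrun3 _ _ _ hc₁ hd₁ 1]
    simp
  have hp₂ : p₂.1.2 = (β, true) :: (List.replicate (n₀ + 1) d ++ c₂ :: w₂) := by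
    simp only [p₂, L, List.append_assoc]
    rw [hrun3 _ _ _ hc₂ hd₂ 1]
    simp
  have hp₃ : p₃.1.2 = (β, true) :: (List.replicate (n₀ + 1) d ++ c₃ :: w₃) := by
    simp only [p₃, L, List.append_assoc]
    rw [hrun3 _ _ _ hc₃ hd₃ 1]
    simp
  have hproj : ∀ u, proj (b : X → F) V (wd σ u p₀) = wd b u • x₀ := by
    intro u
    rw [proj_wd, proj_base]
  have hp12 : p₁ ≠ p₂ := by
    intro e
    have := congrArg (proj (b : X → F) V) e
    simp only [p₁, p₂] at this
    rw [hproj, hproj, wd_append b L, hwo, mul_smul] at this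
    exact hg ((hfix g).mp (smul_left_cancel _ this).symm)
  have hp13 : p₁ ≠ p₃ := by
    intro e
    have := congrArg (proj (b : X → F) V) e
    simp only [p₁, p₃] at this
    rw [hproj, hproj, wd_append b L, hwo, mul_smul] at this
    exact hz ((hfix z).mp (smul_left_cancel _ this).symm)
  let α := d.1
  let q₁ := (σ α)⁻¹ p₁
  let q₃ := (σ α)⁻¹ p₃
  have hαβ : ((β, true) : X × Bool) ≠ linv (α, false) := fun e => hdβ (congrArg Prod.fst e).symm
  have hq₁ : q₁.1.2 = (α, false) :: (β, true) :: (List.replicate (n₀ + 1) d ++ c₁ :: w₁) := by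
    have := ltr_push (b : X → F) V (α, false) (β, true) p₁ _ hp₁ hαβ
    rw [← hp₁]
    exact congrArg Prod.snd this
  have hq₃ : q₃.1.2 = (α, false) :: (β, true) :: (List.replicate (n₀ + 1) d ++ c₃ :: w₃) := by
    have := ltr_push (b : X → F) V (α, false) (β, true) p₃ _ hp₃ hαβ
    rw [← hp₃]
    exact congrArg Prod.snd this
  let π : Equiv.Perm (Pt (b : X → F) V) := Equiv.swap p₁ q₁ * Equiv.swap p₂ q₃
  have hπfix : ∀ q : Pt (b : X → F) V, ¬ Deep (β, true) n₀ q.1.2 → π q = q := by
    intro q hq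
    have h1 : q ≠ p₁ := by
      rintro rfl
      exact hq ⟨[], _, hp₁, by simp; omega⟩
    have h2 : q ≠ p₂ := by
      rintro rfl
      exact hq ⟨[], _, hp₂, by simp; omega⟩
    have h3 : q ≠ q₁ := by
      rintro rfl
      exact hq ⟨[(α, false)], _, hq₁, by simp; omega⟩
    have h4 : q ≠ q₃ := by
      rintro rfl
      exact hq ⟨[(α, false)], _, hq₃, by simp; omega⟩
    simp only [π, Equiv.Perm.mul_apply]
    rw [Equiv.swap_apply_of_ne_of_ne h2 h4, Equiv.swap_apply_of_ne_of_ne h1 h3]
  have hpq : ∀ (p q : Pt (b : X → F) V) (w w' : List (X × Bool)), p.1.2 = (β, true) :: w →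
      q.1.2 = (α, false) :: w' → p ≠ q := by
    rintro p q w w' h1 h2 rfl
    rw [h1] at h2
    simp at h2
  have hπ1 : π p₁ = q₁ := by
    simp only [π, Equiv.Perm.mul_apply]
    rw [Equiv.swap_apply_of_ne_of_ne hp12 (hpq _ _ _ _ hp₁ hq₃), Equiv.swap_apply_left]
  have hπ2 : π p₂ = q₃ := by
    simp only [π, Equiv.Perm.mul_apply]
    rw [Equiv.swap_apply_left, Equiv.swap_apply_of_ne_of_ne (hpq _ _ _ _ hp₁ hq₃).symm]
    intro e
    exact hp13 ((σ α)⁻¹.injective e).symm
  let τ : X → Equiv.Perm (Pt (b : X → F) V) := Function.update σ α (σ α * π)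
  have hshort : ∀ u : List (X × Bool), u.length ≤ n₀ → ¬ Deep (β, true) n₀ (wd σ u p₀).1.2 := by
    intro u hu
    refine not_deep_of_length ?_
    have := length_wd (b : X → F) V u p₀
    simp only [p₀, base, List.length_nil] at this
    simp only [p₀, base, σ]
    omega
  have hag1 : ∀ u : List (X × Bool), u.length ≤ n₀ → wd τ u p₀ = wd σ u p₀ := by
    intro u
    induction u with
    | nil => intro _; rfl
    | cons c u ih =>
      intro hu
      have hu' : u.length ≤ n₀ := by simp only [List.length_cons] at hu; omega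
      rw [wd_cons, wd_cons, Equiv.Perm.mul_apply, Equiv.Perm.mul_apply, ih hu']
      refine ltr_update_of_fixed σ α π c _ (hπfix _ (hshort u hu')) (hπfix _ ?_)
      have := hshort (c :: u) hu
      rwa [wd_cons] at this
  have hag2 : ∀ (u : List (X × Bool)) (c : X × Bool) (w : List (X × Bool)),
      (wd σ u p₀).1.2 = c :: w → c ≠ linv d → u.length ≤ n₀ → ∀ j : ℕ,
      wd τ (List.replicate j d ++ u) p₀ = wd σ (List.replicate j d ++ u) p₀ := by
    intro u c w hu hc hlen j
    have hnd : ∀ j : ℕ, ¬ Deep (β, true) n₀ (wd σ (List.replicate j d ++ u) p₀).1.2 := by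
      intro j
      rw [hrun2 u c w hu hc j]
      induction j with
      | zero => simpa [← hu] using hshort u hlen
      | succ j ih => exact not_deep_cons hdβ' ih
    induction j with
    | zero => exact hag1 u hlen
    | succ j ih =>
      rw [List.replicate_succ, List.cons_append, wd_cons, wd_cons, Equiv.Perm.mul_apply,
        Equiv.Perm.mul_apply, ih]
      refine ltr_update_of_fixed σ α π d _ (hπfix _ (hnd j)) (hπfix _ ?_)
      have := hnd (j + 1)
      rwa [List.replicate_succ, List.cons_append, wd_cons] at this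
  have hag3 : ∀ (u : List (X × Bool)) (c : X × Bool) (w : List (X × Bool)),
      (wd σ u p₀).1.2 = c :: w → c ≠ linv d → u.length ≤ n₀ → ∀ k : ℕ,
      wd τ (List.replicate k (β, true) ++ (List.replicate (n₀ + 1) d ++ u)) p₀ =
        wd σ (List.replicate k (β, true) ++ (List.replicate (n₀ + 1) d ++ u)) p₀ := by
    intro u c w hu hc hlen k
    induction k with
    | zero => exact hag2 u c w hu hc hlen (n₀ + 1)
    | succ k ih =>
      rw [List.replicate_succ (n := k), List.cons_append, wd_cons, wd_cons, Equiv.Perm.mul_apply,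
        Equiv.Perm.mul_apply, ih, ltr_update_of_ne σ α π (β, true) (Ne.symm hdβ)]
  let Ψ : F →* Equiv.Perm (Pt (b : X → F) V) := b.lift τ
  have hΨ : ∀ u, Ψ (wd b u) = wd τ u := lift_wd b τ
  let P : Subgroup F := (MulAction.stabilizer (Equiv.Perm (Pt (b : X → F) V)) p₀).comap Ψ
  have hP : ∀ x, x ∈ P ↔ Ψ x p₀ = p₀ := fun x => Iff.rfl
  have hlen1 : (wo h).length ≤ n₀ := by simp only [n₀]; omega
  have hlen2 : (wo h ++ wo g).length ≤ n₀ := by simp only [n₀, List.length_append]; omega
  have hlen3 : (wo h ++ wo z).length ≤ n₀ := by simp only [n₀, List.length_append]; omega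
  have hMP : M ≤ P := by
    rw [← hS, Subgroup.closure_le]
    intro m hm
    refine (hP m).mpr ?_
    have hlen : (wo m).length ≤ n₀ := by
      have : (wo m).length ≤ S.sup fun m => (wo m).length :=
        Finset.le_sup (f := fun m => (wo m).length) hm
      simp only [n₀]
      omega
    rw [← hwo m, hΨ, hag1 _ hlen, wd_base]
    · rw [hwo, (hfix m).mpr (hS ▸ Subgroup.subset_closure hm)]
    · intro u' hu'
      refine Finset.mem_insert_of_mem (Finset.mem_biUnion.mpr ⟨m, hm, ?_⟩)
      exact Finset.mem_image.mpr ⟨u', by simpa using hu', rfl⟩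
  have hgP : g ∉ P := by
    intro hgP
    have h1 := (hP g).mp hgP
    have hlen : (wo g).length ≤ n₀ := by simp only [n₀]; omega
    rw [← hwo g, hΨ, hag1 _ hlen] at h1
    have h2 := congrArg (proj (b : X → F) V) h1
    rw [hproj, hwo, proj_base] at h2
    exact hg ((hfix g).mp h2)
  let H : F := wd b L
  have hH1 : Ψ H p₀ = p₁ := by
    rw [hΨ]
    exact hag3 _ _ _ hc₁ hd₁ hlen1 1
  have hH2 : Ψ (H * g) p₀ = p₂ := by
    rw [← hwo g, ← wd_append, hΨ]
    simp only [p₂, L, List.append_assoc]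
    exact hag3 _ _ _ hc₂ hd₂ hlen2 1
  have hH3 : Ψ (H * z) p₀ = p₃ := by
    rw [← hwo z, ← wd_append, hΨ]
    simp only [p₃, L, List.append_assoc]
    exact hag3 _ _ _ hc₃ hd₃ hlen3 1
  have hΨα : Ψ (b α) = σ α * π := by simp [Ψ, τ]
  let k : F := H⁻¹ * b α * H
  have hkP : k ∈ P := by
    refine (hP k).mpr ?_
    simp only [k, map_mul, map_inv, Equiv.Perm.mul_apply]
    rw [hH1, hΨα, Equiv.Perm.mul_apply, hπ1, Equiv.Perm.inv_eq_iff_eq, hH1]
    simp [q₁]
  have hk2P : z⁻¹ * k * g ∈ P := by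
    refine (hP _).mpr ?_
    have : z⁻¹ * k * g = (H * z)⁻¹ * (b α * (H * g)) := by simp [k, mul_assoc]
    rw [this, map_mul, map_inv, map_mul _ (b α), Equiv.Perm.mul_apply, Equiv.Perm.mul_apply,
      hH2, hΨα, Equiv.Perm.mul_apply, hπ2, Equiv.Perm.inv_eq_iff_eq, hH3]
    simp [q₃]
  have hPidx : P.index = 0 := by
    rw [← Subgroup.not_finiteIndex_iff, Subgroup.finiteIndex_iff_finite_quotient,
      not_finite_iff_infinite]
    refine Infinite.of_injective (fun j : ℕ => ((wd b (List.replicate j (β, true) ++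
      (List.replicate (n₀ + 1) d ++ wo h)) : F) : F ⧸ P)) ?_
    intro i j hij
    have h1 := (hP _).mp (QuotientGroup.eq.mp hij)
    rw [map_mul, map_inv, Equiv.Perm.mul_apply, Equiv.Perm.inv_eq_iff_eq, hΨ, hΨ,
      hag3 _ _ _ hc₁ hd₁ hlen1, hag3 _ _ _ hc₁ hd₁ hlen1] at h1
    have h2 := congrArg (fun p : Pt (b : X → F) V => p.1.2.length) h1
    rw [hrun3 _ _ _ hc₁ hd₁, hrun3 _ _ _ hc₁ hd₁] at h2
    simp only [List.length_append, List.length_replicate] at h2
    omega
  let M' : Subgroup F := Subgroup.closure (insert k (insert (z⁻¹ * k * g) (S : Set F)))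
  have hM'P : M' ≤ P := by
    refine (Subgroup.closure_le P).mpr ?_
    rintro x (rfl | rfl | hx)
    · exact hkP
    · exact hk2P
    · exact hMP (hS ▸ Subgroup.subset_closure hx)
  refine ⟨M', ?_, ?_, ?_, fun hgM => hgP (hM'P hgM), ?_⟩
  · rw [← hS]
    exact Subgroup.closure_mono fun x hx => Or.inr (Or.inr hx)
  · exact (Subgroup.fg_iff M').mpr ⟨_, rfl, (S.finite_toSet.insert _).insert _⟩
  · exact Nat.eq_zero_of_zero_dvd (hPidx ▸ Subgroup.index_dvd_of_le hM'P)
  · have h1 : g ∈ Subgroup.closure (insert g (M' : Set F)) := Subgroup.subset_closure (Or.inl rfl)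
    have h2 : k ∈ Subgroup.closure (insert g (M' : Set F)) :=
      Subgroup.subset_closure (Or.inr (Subgroup.subset_closure (Or.inl rfl)))
    have h3 : z⁻¹ * k * g ∈ Subgroup.closure (insert g (M' : Set F)) :=
      Subgroup.subset_closure (Or.inr (Subgroup.subset_closure (Or.inr (Or.inl rfl))))
    have h4 := mul_mem (mul_mem h2 h1) (inv_mem h3)
    simpa [mul_assoc] using h4

end Pool.Agent.Lib.MP_f7bfdf_al
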