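import Mathlib

set_option autoImplicit false

open Matrix MatrixGroups
open scoped Pointwise

namespace Pool.Agent.Lib.MP_f7bfdf_al

/-- Nonzero integer vectors in the plane. -/
def NZ : Type := {v : Fin 2 → ℤ // v ≠ 0}

instance instMulActionNZ : MulAction SL(2, ℤ) NZ where
  smul A v := ⟨A • v.1, fun h => v.2 (by
    have := congrArg (fun w => A⁻¹ • w) h
    simpa using this)⟩
  one_smul v := Subtype.ext (one_smul _ v.1)
  mul_smul A B v := Subtype.ext (mul_smul A B v.1)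

theorem NZ.smul_val (A : SL(2, ℤ)) (v : NZ) : (A • v).1 = A.1 *ᵥ v.1 := rfl

/-- The ping-pong generators. -/
def gen (i : ℕ) : SL(2, ℤ) :=
  ⟨!![6 * (i : ℤ) + 3, -1 - (6 * i) * (6 * i + 3); 1, -(6 * i)], by
    rw [Matrix.det_fin_two_of]; ring⟩

theorem gen_smul_zero (i : ℕ) (v : NZ) :
    (gen i • v).1 0 = (6 * (i : ℤ) + 3) * v.1 0 + (-1 - (6 * i) * (6 * i + 3)) * v.1 1 := by
  rw [NZ.smul_val]
  simp [gen, Matrix.mulVec, dotProduct, Fin.sum_univ_two]

theorem gen_smul_one (i : ℕ) (v : NZ) :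
    (gen i • v).1 1 = v.1 0 - (6 * (i : ℤ)) * v.1 1 := by
  rw [NZ.smul_val]
  simp [gen, Matrix.mulVec, dotProduct, Fin.sum_univ_two]
  ring

theorem disj_aux (v : NZ) (c d : ℤ) (hcd : 3 ≤ |c - d|)
    (h1 : |v.1 0 - c * v.1 1| ≤ |v.1 1|) (h2 : |v.1 0 - d * v.1 1| ≤ |v.1 1|) : False := by
  have h3 : |c - d| * |v.1 1| ≤ 2 * |v.1 1| := by
    rw [← abs_mul]
    have : (c - d) * v.1 1 = (v.1 0 - d * v.1 1) - (v.1 0 - c * v.1 1) := by ring
    rw [this]
    have := abs_sub (v.1 0 - d * v.1 1) (v.1 0 - c * v.1 1)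
    linarith
  have h4 : |v.1 1| = 0 := by
    have := abs_nonneg (v.1 1)
    nlinarith
  have h5 : v.1 1 = 0 := abs_eq_zero.mp h4
  rw [h5] at h1
  have h6 : v.1 0 = 0 := by simpa using h1
  apply v.2
  ext j
  fin_cases j
  · exact h6
  · exact h5

theorem lift_gen_injective : Function.Injective (FreeGroup.lift gen) := by
  let X : ℕ → Set NZ := fun i => {v | |v.1 0 - (6 * (i : ℤ) + 3) * v.1 1| ≤ |v.1 1|}
  let Y : ℕ → Set NZ := fun i => {v | |v.1 0 - (6 * (i : ℤ)) * v.1 1| < |v.1 1|}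
  refine FreeGroup.injective_lift_of_ping_pong gen X Y ?_ ?_ ?_ ?_ ?_ ?_
  · intro i
    refine ⟨⟨![6 * (i : ℤ) + 3, 1], ?_⟩, ?_⟩
    · intro h
      have := congrFun h 1
      simp at this
    · show |(![6 * (i : ℤ) + 3, 1] : Fin 2 → ℤ) 0 - (6 * (i : ℤ) + 3) *
        (![6 * (i : ℤ) + 3, 1] : Fin 2 → ℤ) 1| ≤ |(![6 * (i : ℤ) + 3, 1] : Fin 2 → ℤ) 1|
      simp
  · intro i j hij
    refine Set.disjoint_left.mpr fun v h1 h2 => disj_aux v _ _ ?_ h1 h2
    have : (i : ℤ) ≠ j := by exact_mod_cast hij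
    rw [le_abs]
    omega
  · intro i j hij
    refine Set.disjoint_left.mpr fun v h1 h2 => disj_aux v _ _ ?_ (le_of_lt h1) (le_of_lt h2)
    have : (i : ℤ) ≠ j := by exact_mod_cast hij
    rw [le_abs]
    omega
  · intro i j
    refine Set.disjoint_left.mpr fun v h1 h2 => disj_aux v _ _ ?_ h1 (le_of_lt h2)
    rw [le_abs]
    omega
  · intro i
    rintro _ ⟨v, hv, rfl⟩
    simp only [Y, Set.mem_compl_iff, Set.mem_ofPred_eq, not_lt] at hv
    simp only [X, Set.mem_ofPred_eq]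
    rw [gen_smul_zero, gen_smul_one]
    have : (6 * (i : ℤ) + 3) * v.1 0 + (-1 - (6 * i) * (6 * i + 3)) * v.1 1 -
        (6 * (i : ℤ) + 3) * (v.1 0 - (6 * (i : ℤ)) * v.1 1) = - v.1 1 := by ring
    rw [this, abs_neg]
    exact hv
  · intro i
    rintro _ ⟨v, hv, rfl⟩
    simp only [X, Set.mem_compl_iff, Set.mem_ofPred_eq, not_le] at hv
    simp only [Y, Set.mem_ofPred_eq, Pi.inv_apply]
    set w := (gen i)⁻¹ • v with hw
    have hv' : v = gen i • w := by rw [hw, smul_inv_smul]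
    rw [hv', gen_smul_zero, gen_smul_one] at hv
    have : (6 * (i : ℤ) + 3) * w.1 0 + (-1 - (6 * i) * (6 * i + 3)) * w.1 1 -
        (6 * (i : ℤ) + 3) * (w.1 0 - (6 * (i : ℤ)) * w.1 1) = - w.1 1 := by ring
    rw [this, abs_neg] at hv
    exact hv

/-- A group with a countable free basis embeds in `SL(2, ℤ)`. -/
theorem exists_emb_of_basis {ι H : Type*} [Group H] [Countable ι] (b : FreeGroupBasis ι H) :
    ∃ ρ : H →* SL(2, ℤ), Function.Injective ρ := by
  obtain ⟨f, hf⟩ := exists_injective_nat ι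
  refine ⟨((FreeGroup.lift gen).comp (FreeGroup.map f)).comp b.repr.toMonoidHom, ?_⟩
  exact (lift_gen_injective.comp (FreeGroup.map_injective hf)).comp b.repr.injective

/-- `SL(2, ℤ)` is residually finite. -/
theorem exists_finite_quot (A : SL(2, ℤ)) (hA : A ≠ 1) :
    ∃ (Q : Type) (_ : Group Q) (_ : Finite Q) (f : SL(2, ℤ) →* Q), f A ≠ 1 := by
  have : ∃ i j, A.1 i j ≠ (1 : Matrix (Fin 2) (Fin 2) ℤ) i j := by
    by_contra h
    push Not at h
    exact hA (Subtype.ext (Matrix.ext h))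
  obtain ⟨i, j, hij⟩ := this
  set m : ℤ := A.1 i j - (1 : Matrix (Fin 2) (Fin 2) ℤ) i j with hm
  have hm0 : m ≠ 0 := sub_ne_zero.mpr hij
  let n : ℕ := m.natAbs + 1
  have : NeZero n := ⟨Nat.succ_ne_zero _⟩
  refine ⟨SL(2, ZMod n), inferInstance, inferInstance,
    Matrix.SpecialLinearGroup.map (Int.castRingHom (ZMod n)), fun h => ?_⟩
  have h1 := congrArg (fun B : SL(2, ZMod n) => B.1 i j) h
  simp only [Matrix.SpecialLinearGroup.map_apply_coe, RingHom.mapMatrix_apply,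
    Matrix.map_apply, Matrix.SpecialLinearGroup.coe_one] at h1
  have h2 : ((m : ℤ) : ZMod n) = 0 := by
    rw [hm, Int.cast_sub]
    have : (((1 : Matrix (Fin 2) (Fin 2) ℤ) i j : ℤ) : ZMod n) =
        (1 : Matrix (Fin 2) (Fin 2) (ZMod n)) i j := by
      simp [Matrix.one_apply]
    rw [this, ← h1]
    simp
  rw [ZMod.intCast_zmod_eq_zero_iff_dvd] at h2
  have := Int.natAbs_le_of_dvd_ne_zero h2 hm0
  rw [Int.natAbs_natCast] at this
  simp only [n] at this
  omega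

/-- A group with a countable free basis is residually finite. -/
theorem exists_finite_quot_of_basis {ι H : Type*} [Group H] [Countable ι]
    (b : FreeGroupBasis ι H) (w : H) (hw : w ≠ 1) :
    ∃ (Q : Type) (_ : Group Q) (_ : Finite Q) (f : H →* Q), f w ≠ 1 := by
  obtain ⟨ρ, hρ⟩ := exists_emb_of_basis b
  obtain ⟨Q, _, _, f, hf⟩ := exists_finite_quot (ρ w) (fun h => hw (hρ (by simpa using h)))
  exact ⟨Q, inferInstance, inferInstance, f.comp ρ, hf⟩

end Pool.Agent.Lib.MP_f7bfdf_al
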