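import Mathlib
import Pool.Agent.Lib.MP_f7bfdf_al.PingPong

set_option autoImplicit false

namespace Pool.Agent.Lib.MP_f7bfdf_al

theorem finite_hom_of_fg {H Q : Type*} [Group H] [Group Q] [Finite Q] (h : Group.FG H) :
    Finite (H →* Q) := by
  obtain ⟨S, hS⟩ := h.out
  refine Finite.of_injective (fun (f : H →* Q) (x : S) => f x) ?_
  intro f g hfg
  refine MonoidHom.eq_of_eqOn_dense hS ?_
  intro x hx
  exact congrFun hfg ⟨x, hx⟩

/-- A free basis of a finitely generated group is finite. -/
theorem finite_basis_of_fg {ι H : Type*} [Group H] (b : FreeGroupBasis ι H) (h : Group.FG H) :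
    Finite ι := by
  have h1 : Finite (H →* Multiplicative (ZMod 2)) := finite_hom_of_fg h
  have h2 : Finite (ι → Multiplicative (ZMod 2)) := Finite.of_equiv _ b.lift.symm
  by_contra hι
  rw [not_finite_iff_infinite] at hι
  have : Infinite (ι → Multiplicative (ZMod 2)) := inferInstance
  exact not_finite (ι → Multiplicative (ZMod 2))

/-- Hopf property: a surjection from a free group of finite rank onto a free group of at least
the same finite rank is injective. -/
theorem injective_of_surjective {α β A B : Type*} [Group A] [Group B] [Finite α] [Finite β]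
    (a : FreeGroupBasis α A) (b : FreeGroupBasis β B) (hcard : Nat.card α ≤ Nat.card β)
    (φ : A →* B) (hφ : Function.Surjective φ) : Function.Injective φ := by
  rw [injective_iff_map_eq_one]
  intro w hw
  by_contra hw1
  obtain ⟨Q, _, _, ψ, hψ⟩ := exists_finite_quot_of_basis a w hw1
  have hA : Finite (A →* Q) := Finite.of_equiv _ a.lift
  have hB : Finite (B →* Q) := Finite.of_equiv _ b.lift
  let pre : (B →* Q) → (A →* Q) := fun χ => χ.comp φ
  have hinj : Function.Injective pre := by
    intro χ χ' h
    ext y
    obtain ⟨x, rfl⟩ := hφ y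
    exact DFunLike.congr_fun h x
  have hle : Nat.card (A →* Q) ≤ Nat.card (B →* Q) := by
    rw [← Nat.card_congr a.lift, ← Nat.card_congr b.lift, Nat.card_fun, Nat.card_fun]
    exact Nat.pow_le_pow_right Nat.card_pos hcard
  have hbij : Function.Bijective pre := hinj.bijective_of_nat_card_le hle
  obtain ⟨χ, hχ⟩ := hbij.2 ψ
  apply hψ
  rw [← hχ]
  simp [pre, hw]

end Pool.Agent.Lib.MP_f7bfdf_al
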