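import Mathlib
import Pool.Agent.Lib.MP_f7bfdf_al.Hopf

set_option autoImplicit false

open Matrix MatrixGroups Filter

namespace Pool.Agent.Lib.MP_f7bfdf_al

universe u

/-- A group is locally free when its finitely generated subgroups are free. -/
def LocFree (G : Type u) [Group G] : Prop := ∀ H : Subgroup G, H.FG → IsFreeGroup H

theorem LocFree.exists_basis {G : Type u} [Group G] (hG : LocFree G) (H : Subgroup G)
    (hH : H.FG) : ∃ (ι : Type u) (_ : Finite ι), Nonempty (FreeGroupBasis ι H) := by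
  obtain ⟨ι, ⟨b⟩⟩ := (hG H hH).nonempty_basis
  exact ⟨ι, finite_basis_of_fg b ((Group.fg_iff_subgroup_fg H).mpr hH), ⟨b⟩⟩

/-- A locally free group embeds in `SL(2, K)` for a field `K`. -/
theorem LocFree.exists_linear {G : Type u} [Group G] (hG : LocFree G) :
    ∃ (K : Type u) (_ : Field K) (ρ : G →* SL(2, K)), Function.Injective ρ := by
  classical
  have h1 : ∀ T : Finset G, ∃ ρ : Subgroup.closure (T : Set G) →* SL(2, ℤ),
      Function.Injective ρ := by
    intro T
    obtain ⟨ι, _, ⟨b⟩⟩ := hG.exists_basis (Subgroup.closure (T : Set G)) ⟨T, rfl⟩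
    exact exists_emb_of_basis b
  choose ρT hρT using h1
  let U : Ultrafilter (Finset G) := Ultrafilter.of atTop
  have hU : ∀ g : G, ∀ᶠ T : Finset G in (U : Filter (Finset G)),
      g ∈ Subgroup.closure (T : Set G) := by
    intro g
    apply Ultrafilter.of_le atTop
    filter_upwards [eventually_ge_atTop ({g} : Finset G)] with T hT
    exact Subgroup.subset_closure (by simpa using hT)
  let r : Finset G → G → SL(2, ℤ) := fun T g =>
    if h : g ∈ Subgroup.closure (T : Set G) then ρT T ⟨g, h⟩ else 1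
  let K := Germ (U : Filter (Finset G)) ℚ
  let c : G → Matrix (Fin 2) (Fin 2) K := fun g i j =>
    ((fun T => (((r T g).1 i j : ℤ) : ℚ)) : Finset G → ℚ)
  have hdet : ∀ g, (c g).det = 1 := by
    intro g
    rw [Matrix.det_fin_two]
    simp only [c]
    rw [← Germ.coe_mul, ← Germ.coe_mul, ← Germ.coe_sub, ← Germ.coe_one, Germ.coe_eq]
    refine Eventually.of_forall fun T => ?_
    have := (r T g).2
    rw [Matrix.det_fin_two] at this
    simp only [Pi.sub_apply, Pi.mul_apply, Pi.one_apply]
    exact_mod_cast this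
  have hmul : ∀ g h, c (g * h) = c g * c h := by
    intro g h
    ext i j
    rw [Matrix.mul_apply, Fin.sum_univ_two]
    simp only [c]
    rw [← Germ.coe_mul, ← Germ.coe_mul, ← Germ.coe_add, Germ.coe_eq]
    filter_upwards [hU g, hU h] with T hg hh
    have : r T (g * h) = r T g * r T h := by
      simp only [r, dif_pos hg, dif_pos hh, dif_pos (mul_mem hg hh)]
      rw [← map_mul]
      rfl
    simp only [Pi.add_apply, Pi.mul_apply]
    rw [this, Matrix.SpecialLinearGroup.coe_mul, Matrix.mul_apply, Fin.sum_univ_two]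
    push_cast
    rfl
  let ρ : G →* SL(2, K) := MonoidHom.mk' (fun g => ⟨c g, hdet g⟩)
    (fun g h => Subtype.ext (hmul g h))
  refine ⟨K, inferInstance, ρ, ?_⟩
  intro g h hgh
  have hc : c g = c h := congrArg Subtype.val hgh
  have hev : ∀ i j, ∀ᶠ T : Finset G in (U : Filter (Finset G)),
      (r T g).1 i j = (r T h).1 i j := by
    intro i j
    have := congrFun (congrFun hc i) j
    simp only [c] at this
    rw [Germ.coe_eq] at this
    filter_upwards [this] with T hT
    exact_mod_cast hT
  obtain ⟨T, hT, hg, hh⟩ := ((eventually_all.mpr fun p : Fin 2 × Fin 2 => hev p.1 p.2).and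
    ((hU g).and (hU h))).exists
  have : r T g = r T h := Subtype.ext (Matrix.ext fun i j => hT (i, j))
  simp only [r, dif_pos hg, dif_pos hh] at this
  exact congrArg Subtype.val (hρT T this)

/-- One-variable word maps with coefficients in `S`. -/
def Words {G : Type u} [Group G] (S : Set G) : Subgroup (G → G) :=
  Subgroup.closure (insert id ((fun a (_ : G) => a) '' S))

theorem Words.mono {G : Type u} [Group G] {S T : Set G} (h : S ⊆ T) : Words S ≤ Words T :=
  Subgroup.closure_mono (Set.insert_subset_insert (Set.image_mono h))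

theorem Words.id_mem {G : Type u} [Group G] (S : Set G) : (id : G → G) ∈ Words S :=
  Subgroup.subset_closure (Set.mem_insert _ _)

theorem Words.const_mem {G : Type u} [Group G] {S : Set G} {a : G} (ha : a ∈ S) :
    (fun _ : G => a) ∈ Words S :=
  Subgroup.subset_closure (Set.mem_insert_of_mem _ ⟨a, ha, rfl⟩)

/-- A locally free group is equationally Noetherian (in one variable). -/
theorem LocFree.noetherian {G : Type u} [Group G] (hG : LocFree G) (𝓕 : Set (G → G))
    (h𝓕 : 𝓕 ⊆ Words (Set.univ : Set G)) :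
    ∃ 𝓕₀ : Finset (G → G), ↑𝓕₀ ⊆ 𝓕 ∧ ∀ y, (∀ f ∈ 𝓕₀, f y = 1) → ∀ f ∈ 𝓕, f y = 1 := by
  classical
  obtain ⟨K, _, ρ, hρ⟩ := hG.exists_linear
  let co : Fin 2 × Fin 2 → (G → K) := fun p s => (ρ s).1 p.1 p.2
  let A : Subalgebra K (G → K) := Algebra.adjoin K (Set.range co)
  have hA : Algebra.FiniteType K A := Algebra.FiniteType.adjoin_of_finite (Set.finite_range co)
  have hN : IsNoetherianRing A := Algebra.FiniteType.isNoetherianRing K A
  have hmem : ∀ f ∈ Words (Set.univ : Set G), ∀ i j, (fun s => (ρ (f s)).1 i j) ∈ A := by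
    intro f hf
    induction hf using Subgroup.closure_induction with
    | mem f hf =>
      intro i j
      rcases hf with rfl | ⟨a, -, rfl⟩
      · exact Algebra.subset_adjoin ⟨(i, j), rfl⟩
      · exact A.algebraMap_mem ((ρ a).1 i j)
    | one =>
      intro i j
      exact A.algebraMap_mem ((ρ 1).1 i j)
    | mul f g _ _ hf hg =>
      intro i j
      have : (fun s => (ρ ((f * g) s)).1 i j) =
          (fun s => (ρ (f s)).1 i 0) * (fun s => (ρ (g s)).1 0 j) +
          (fun s => (ρ (f s)).1 i 1) * (fun s => (ρ (g s)).1 1 j) := by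
        ext s
        simp [Matrix.mul_apply, Fin.sum_univ_two]
      rw [this]
      exact A.add_mem (A.mul_mem (hf _ _) (hg _ _)) (A.mul_mem (hf _ _) (hg _ _))
    | inv f _ hf =>
      intro i j
      have h00 : (fun s => (ρ (f⁻¹ s)).1 0 0) = (fun s => (ρ (f s)).1 1 1) := by
        ext s
        simp [Matrix.adjugate_fin_two]
      have h01 : (fun s => (ρ (f⁻¹ s)).1 0 1) = -(fun s => (ρ (f s)).1 0 1) := by
        ext s
        simp [Matrix.adjugate_fin_two]
      have h10 : (fun s => (ρ (f⁻¹ s)).1 1 0) = -(fun s => (ρ (f s)).1 1 0) := by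
        ext s
        simp [Matrix.adjugate_fin_two]
      have h11 : (fun s => (ρ (f⁻¹ s)).1 1 1) = (fun s => (ρ (f s)).1 0 0) := by
        ext s
        simp [Matrix.adjugate_fin_two]
      fin_cases i <;> fin_cases j
      · exact h00 ▸ hf 1 1
      · exact h01 ▸ A.neg_mem (hf 0 1)
      · exact h10 ▸ A.neg_mem (hf 1 0)
      · exact h11 ▸ hf 0 0
  let e : 𝓕 × Fin 2 × Fin 2 → A := fun p =>
    ⟨fun s => (ρ (p.1.1 s)).1 p.2.1 p.2.2, hmem p.1.1 (h𝓕 p.1.2) _ _⟩ -
      algebraMap K A ((1 : Matrix (Fin 2) (Fin 2) K) p.2.1 p.2.2)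
  have hfg : (Submodule.span A (Set.range e)).FG := IsNoetherian.noetherian _
  obtain ⟨E, hE, hspan⟩ := (Submodule.fg_span_iff_fg_span_finset_subset _).mp hfg
  have : ∀ x : E, ∃ p, e p = x := fun x => hE x.2
  choose pr hpr using this
  refine ⟨Finset.univ.image (fun x : E => (pr x).1.1), ?_, ?_⟩
  · intro f hf
    simp only [Finset.coe_image, Finset.coe_univ, Set.image_univ, Set.mem_range] at hf
    obtain ⟨x, rfl⟩ := hf
    exact (pr x).1.2
  · intro y hy f hf
    let ev : A →+* K := (Pi.evalRingHom (fun _ : G => K) y).comp A.val.toRingHom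
    have hev : ∀ p, ev (e p) = (ρ (p.1.1 y)).1 p.2.1 p.2.2 -
        (1 : Matrix (Fin 2) (Fin 2) K) p.2.1 p.2.2 := by
      intro p
      simp only [e, map_sub]
      rfl
    have hker : Submodule.span A (E : Set A) ≤ RingHom.ker ev := by
      rw [Submodule.span_le]
      intro x hx
      have h1 := hpr ⟨x, hx⟩
      have h2 : (pr ⟨x, hx⟩).1.1 y = 1 :=
        hy _ (Finset.mem_image.mpr ⟨⟨x, hx⟩, Finset.mem_univ _, rfl⟩)
      show ev x = 0
      have h3 : x = e (pr ⟨x, hx⟩) := h1.symm
      rw [h3, hev, h2]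
      simp
    apply hρ
    rw [map_one]
    refine Subtype.ext (Matrix.ext fun i j => ?_)
    have h4 : e (⟨f, hf⟩, i, j) ∈ Submodule.span A (Set.range e) :=
      Submodule.subset_span ⟨_, rfl⟩
    rw [hspan] at h4
    have h5 : ev (e (⟨f, hf⟩, i, j)) = 0 := hker h4
    rw [hev] at h5
    exact sub_eq_zero.mp h5

end Pool.Agent.Lib.MP_f7bfdf_al
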