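import Mathlib
import Pool.Agent.Lib.MP_f7bfdf_al.Linear

set_option autoImplicit false

open Cardinal

namespace Pool.Agent.Lib.MP_f7bfdf_al

universe u

theorem exists_finite_subset_of_mem_closure {G : Type*} [Group G] {S : Set G} {x : G}
    (hx : x ∈ Subgroup.closure S) : ∃ S₀ : Set G, S₀.Finite ∧ S₀ ⊆ S ∧ x ∈ Subgroup.closure S₀ := by
  induction hx using Subgroup.closure_induction with
  | mem x hx => exact ⟨{x}, Set.finite_singleton x, by simpa using hx,
      Subgroup.subset_closure rfl⟩
  | one => exact ⟨∅, Set.finite_empty, Set.empty_subset _, one_mem _⟩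
  | mul x y _ _ hx hy =>
    obtain ⟨A, hA, hAS, hxA⟩ := hx
    obtain ⟨B, hB, hBS, hyB⟩ := hy
    exact ⟨A ∪ B, hA.union hB, Set.union_subset hAS hBS,
      mul_mem (Subgroup.closure_mono Set.subset_union_left hxA)
        (Subgroup.closure_mono Set.subset_union_right hyB)⟩
  | inv x _ hx =>
    obtain ⟨A, hA, hAS, hxA⟩ := hx
    exact ⟨A, hA, hAS, inv_mem hxA⟩

theorem mk_closure_le {G : Type u} [Group G] (S : Set G) :
    Cardinal.mk (Subgroup.closure S) ≤ max (Cardinal.mk S) ℵ₀ := by
  rw [FreeGroup.closure_eq_range]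
  refine le_trans (Cardinal.mk_range_le (f := FreeGroup.lift ((↑) : S → G))) ?_
  rcases isEmpty_or_nonempty S with h | h
  · exact le_trans Cardinal.mk_le_aleph0 (le_max_right _ _)
  · exact (Cardinal.mk_freeGroup S).le

/-- If `s` differs from `y ∈ H` and `y` satisfies all equations over `H` that `s` satisfies, then
`s` is free over `H`. -/
theorem LocFree.free_ext {G : Type u} [Group G] (hG : LocFree G) (H : Subgroup G) (hH : H.FG)
    (s y : G) (hy : y ∈ H) (hsy : s ≠ y)
    (htp : ∀ f ∈ Words (H : Set G), f s = 1 → f y = 1) {Q : Type u} [Group Q] (φ : G →* Q) (q : Q) :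
    ∃ (K : Subgroup G) (ψ : K →* Q), H ≤ K ∧ s ∈ K ∧ (∀ x : K, x.1 ∈ H → ψ x = φ x) ∧
      ∀ x : K, x.1 = s → ψ x = q := by
  obtain ⟨ι, _, ⟨b⟩⟩ := hG.exists_basis H hH
  let π : FreeGroup (Option ι) →* G := FreeGroup.lift (fun o => o.elim s (fun i => (b i : G)))
  let θ : FreeGroup (Option ι) →* H := FreeGroup.lift (fun o => o.elim ⟨y, hy⟩ (fun i => b i))
  let σ : H →* FreeGroup (Option ι) := (FreeGroup.map some).comp b.repr.toMonoidHom
  have hπσ : π.comp σ = H.subtype := by
    refine b.ext_hom _ _ fun i => ?_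
    simp [π, σ]
  have hθσ : θ.comp σ = MonoidHom.id H := by
    refine b.ext_hom _ _ fun i => ?_
    simp [θ, σ]
  have hπσ' : ∀ x : H, π (σ x) = x := fun x => DFunLike.congr_fun hπσ x
  have hθσ' : ∀ x : H, θ (σ x) = x := fun x => DFunLike.congr_fun hθσ x
  have hker : π.ker ≤ θ.ker := by
    intro w hw
    let ω : FreeGroup (Option ι) →* (G → G) :=
      FreeGroup.lift (fun o => o.elim id (fun i _ => (b i : G)))
    have hω : ω w ∈ Words (H : Set G) := by
      have : ω.range ≤ Words (H : Set G) := by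
        refine FreeGroup.range_lift_le ?_
        rintro _ ⟨o, rfl⟩
        cases o with
        | none => exact Words.id_mem _
        | some i => exact Words.const_mem (b i).2
      exact this ⟨w, rfl⟩
    have h1 : (Pi.evalMonoidHom (fun _ : G => G) s).comp ω = π := by
      refine FreeGroup.ext_hom _ _ fun o => ?_
      cases o <;> simp [ω, π]
    have h2 : (Pi.evalMonoidHom (fun _ : G => G) y).comp ω = H.subtype.comp θ := by
      refine FreeGroup.ext_hom _ _ fun o => ?_
      cases o <;> simp [ω, θ]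
    have h3 : ω w s = π w := DFunLike.congr_fun h1 w
    have h4 : ω w y = (θ w : G) := DFunLike.congr_fun h2 w
    have h5 := htp _ hω (by rw [h3]; exact hw)
    rw [h4] at h5
    exact Subtype.ext h5
  have hKfg : π.range.FG := by
    have : Group.FG π.range := Group.fg_range π
    exact (Group.fg_iff_subgroup_fg _).mp this
  obtain ⟨κ, _, ⟨c⟩⟩ := hG.exists_basis π.range hKfg
  have hsurj : Function.Surjective π.rangeRestrict := π.rangeRestrict_surjective
  have hsπ : π (FreeGroup.of none) = s := by simp [π]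
  rcases le_or_gt (Nat.card (Option ι)) (Nat.card κ) with hle | hlt
  · have hinj := injective_of_surjective (FreeGroupBasis.ofFreeGroup (Option ι)) c hle _ hsurj
    let e : FreeGroup (Option ι) ≃* π.range := MulEquiv.ofBijective π.rangeRestrict ⟨hinj, hsurj⟩
    let χ : FreeGroup (Option ι) →* Q := FreeGroup.lift (fun o => o.elim q (fun i => φ (b i)))
    have hχσ : χ.comp σ = φ.comp H.subtype := by
      refine b.ext_hom _ _ fun i => ?_
      simp [χ, σ]
    refine ⟨π.range, χ.comp e.symm.toMonoidHom, ?_, ⟨_, hsπ⟩, ?_, ?_⟩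
    · intro x hx
      exact ⟨σ ⟨x, hx⟩, hπσ' ⟨x, hx⟩⟩
    · intro x hx
      have : x = e (σ ⟨x, hx⟩) := Subtype.ext (hπσ' ⟨x, hx⟩).symm
      have h6 : e.symm x = σ ⟨x, hx⟩ := by rw [MulEquiv.symm_apply_eq]; exact this
      show χ (e.symm x) = φ x
      rw [h6]
      exact DFunLike.congr_fun hχσ ⟨x, hx⟩
    · intro x hx
      have : x = e (FreeGroup.of none) := Subtype.ext (hx.trans hsπ.symm)
      have h6 : e.symm x = FreeGroup.of none := by rw [MulEquiv.symm_apply_eq]; exact this
      show χ (e.symm x) = q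
      rw [h6]
      simp [χ]
  · exfalso
    have hle : Nat.card κ ≤ Nat.card ι := by
      rw [Finite.card_option] at hlt
      omega
    have hker' : π.rangeRestrict.ker ≤ θ.ker := by
      rw [MonoidHom.ker_rangeRestrict]
      exact hker
    let ρ : π.range →* H := π.rangeRestrict.liftOfSurjective hsurj ⟨θ, hker'⟩
    have hρ : ∀ w, ρ (π.rangeRestrict w) = θ w := fun w =>
      MonoidHom.liftOfRightInverse_comp_apply _ _ _ _ w
    have hρsurj : Function.Surjective ρ := fun x => ⟨π.rangeRestrict (σ x), by rw [hρ, hθσ']⟩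
    have hinj := injective_of_surjective c b hle ρ hρsurj
    have h7 : ρ (π.rangeRestrict (FreeGroup.of none)) = ρ (π.rangeRestrict (σ ⟨y, hy⟩)) := by
      rw [hρ, hρ, hθσ']
      simp [θ]
    have h8 := congrArg Subtype.val (hinj h7)
    apply hsy
    simpa [hsπ, hπσ'] using h8

/-- Every subset lies in a subgroup of about the same size that solves all finite systems of
one-variable equations with coefficients in it that are solvable in `G`. -/
theorem exists_closed {G : Type u} [Group G] (S : Set G) :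
    ∃ B : Subgroup G, S ⊆ B ∧ Cardinal.mk B ≤ max (Cardinal.mk S) ℵ₀ ∧
      ∀ 𝓕₀ : Finset (G → G), ↑𝓕₀ ⊆ (Words (B : Set G) : Set (G → G)) →
        (∃ s, ∀ f ∈ 𝓕₀, f s = 1) → ∃ y ∈ B, ∀ f ∈ 𝓕₀, f y = 1 := by
  classical
  set c := max (Cardinal.mk S) ℵ₀ with hc
  have hc0 : ℵ₀ ≤ c := le_max_right _ _
  let Sk : List (G → G) → G := fun l => if h : ∃ s, ∀ f ∈ l, f s = 1 then h.choose else 1
  let nxt : Subgroup G → Subgroup G := fun A => Subgroup.closure
    ((A : Set G) ∪ Set.range (fun l : List (Words (A : Set G)) => Sk (l.map Subtype.val)))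
  have hnxt : ∀ A : Subgroup G, Cardinal.mk A ≤ c → Cardinal.mk (nxt A) ≤ c := by
    intro A hA
    refine le_trans (mk_closure_le _) (max_le ?_ hc0)
    refine le_trans (Cardinal.mk_union_le _ _) ?_
    refine Cardinal.add_le_of_le hc0 hA ?_
    refine le_trans Cardinal.mk_range_le ?_
    refine le_trans (Cardinal.mk_list_le_max _) (max_le hc0 ?_)
    refine le_trans (mk_closure_le _) (max_le ?_ hc0)
    refine le_trans Cardinal.mk_insert_le ?_
    refine Cardinal.add_le_of_le hc0 (le_trans Cardinal.mk_image_le hA) ?_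
    exact le_trans Cardinal.one_le_aleph0 hc0
  let B : ℕ → Subgroup G := fun n => nxt^[n] (Subgroup.closure S)
  have hBs : ∀ n, B (n + 1) = nxt (B n) := fun n => Function.iterate_succ_apply' _ _ _
  have hBc : ∀ n, Cardinal.mk (B n) ≤ c := by
    intro n
    induction n with
    | zero => exact mk_closure_le S
    | succ n ih => rw [hBs]; exact hnxt _ ih
  have hmono : Monotone B := by
    refine monotone_nat_of_le_succ fun n => ?_
    rw [hBs]
    intro x hx
    exact Subgroup.subset_closure (Or.inl hx)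
  have hdir : Directed (· ≤ ·) B := hmono.directed_le
  refine ⟨⨆ n, B n, ?_, ?_, ?_⟩
  · intro x hx
    exact (le_iSup B 0) (Subgroup.subset_closure hx)
  · have : Cardinal.mk (⨆ n, B n : Subgroup G) = Cardinal.mk (⋃ n, (B n : Set G)) := by
      rw [← Subgroup.coe_iSup_of_directed hdir]
      rfl
    rw [this]
    have h0 := Cardinal.mk_iUnion_le_lift (fun n => (B n : Set G))
    simp only [Cardinal.lift_uzero, Cardinal.mk_nat, Cardinal.lift_aleph0] at h0
    refine le_trans h0 ?_
    refine le_trans (mul_le_mul' hc0 (ciSup_le' hBc)) ?_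
    exact (Cardinal.mul_eq_self hc0).le
  · intro 𝓕₀ h𝓕₀ hs
    have h1 : ∀ f ∈ Words ((⨆ n, B n : Subgroup G) : Set G), ∃ n, f ∈ Words (B n : Set G) := by
      intro f hf
      induction hf using Subgroup.closure_induction with
      | mem f hf =>
        rcases hf with rfl | ⟨a, ha, rfl⟩
        · exact ⟨0, Words.id_mem _⟩
        · obtain ⟨n, hn⟩ := (Subgroup.mem_iSup_of_directed hdir).mp ha
          exact ⟨n, Words.const_mem hn⟩
      | one => exact ⟨0, one_mem _⟩
      | mul f g _ _ hf hg =>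
        obtain ⟨n, hn⟩ := hf
        obtain ⟨m, hm⟩ := hg
        exact ⟨max n m, mul_mem (Words.mono (hmono (le_max_left n m)) hn)
          (Words.mono (hmono (le_max_right n m)) hm)⟩
      | inv f _ hf =>
        obtain ⟨n, hn⟩ := hf
        exact ⟨n, inv_mem hn⟩
    have h2 : ∃ n, ∀ f ∈ 𝓕₀, f ∈ Words (B n : Set G) := by
      choose! N hN using h1
      refine ⟨𝓕₀.sup N, fun f hf => ?_⟩
      exact Words.mono (hmono (Finset.le_sup hf)) (hN f (h𝓕₀ hf))
    obtain ⟨n, hn⟩ := h2
    let l : List (Words (B n : Set G)) :=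
      𝓕₀.toList.attach.map fun f => ⟨f.1, hn f.1 (Finset.mem_toList.mp f.2)⟩
    have hl : l.map Subtype.val = 𝓕₀.toList := by
      simp [l, List.map_map, Function.comp_def]
    have hex : ∃ s, ∀ f ∈ 𝓕₀.toList, f s = 1 := by simpa using hs
    refine ⟨Sk 𝓕₀.toList, ?_, ?_⟩
    · refine (le_iSup B (n + 1)) ?_
      rw [hBs]
      exact Subgroup.subset_closure (Or.inr ⟨l, by simp only [hl]⟩)
    · intro f hf
      simp only [Sk, dif_pos hex]
      exact hex.choose_spec f (Finset.mem_toList.mpr hf)

end Pool.Agent.Lib.MP_f7bfdf_al
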