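import Mathlib
import Pool.Agent.Lib.MP_f7bfdf_al.FreeExt

set_option autoImplicit false

open Cardinal

namespace Pool.Agent.Lib.MP_f7bfdf_al

universe u

/-- The successor step in the uncountable case. -/
theorem LocFree.step_uncountable {G : Type u} [Group G] (hG : LocFree G)
    (hunc : ℵ₀ < Cardinal.mk G) (g z : G) (S : Set G) (hS : Cardinal.mk S < Cardinal.mk G)
    (hg : g ∉ Subgroup.closure S) :
    ∃ T : Set G, T.Finite ∧ g ∉ Subgroup.closure (S ∪ T) ∧
      z ∈ Subgroup.closure (insert g (S ∪ T)) := by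
  classical
  set M := Subgroup.closure S with hM
  by_cases hz : z ∈ M
  · refine ⟨∅, Set.finite_empty, by simpa using hg, ?_⟩
    exact Subgroup.closure_mono (fun x hx => Or.inr (Or.inl hx)) hz
  obtain ⟨B, hSB, hBc, hBcl⟩ := exists_closed (insert g (insert z S))
  have hBlt : Cardinal.mk B < Cardinal.mk G := by
    refine lt_of_le_of_lt hBc (max_lt ?_ hunc)
    refine lt_of_le_of_lt Cardinal.mk_insert_le (Cardinal.add_lt_of_lt hunc.le ?_ ?_)
    · refine lt_of_le_of_lt Cardinal.mk_insert_le (Cardinal.add_lt_of_lt hunc.le hS ?_)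
      exact lt_trans Cardinal.one_lt_aleph0 hunc
    · exact lt_trans Cardinal.one_lt_aleph0 hunc
  have : ∃ s, s ∉ B := by
    by_contra h
    push Not at h
    have : Cardinal.mk G ≤ Cardinal.mk B :=
      Cardinal.mk_le_of_injective (f := fun x => (⟨x, h x⟩ : B))
        (fun x y hxy => congrArg Subtype.val hxy)
    exact absurd hBlt (not_lt.mpr this)
  obtain ⟨s, hs⟩ := this
  refine ⟨{s, z⁻¹ * s * g}, Set.toFinite _, ?_, ?_⟩
  · intro hgc
    rw [Set.union_comm, Subgroup.closure_union, sup_comm] at hgc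
    obtain ⟨S₁, hS₁, hS₁S, hg₁⟩ := exists_finite_subset_of_mem_closure
      (S := S ∪ {s, z⁻¹ * s * g}) (x := g) (by rwa [Subgroup.closure_union])
    obtain ⟨𝓕₀, h𝓕₀, hN⟩ := hG.noetherian {f | f ∈ Words (B : Set G) ∧ f s = 1}
      (fun f hf => Words.mono (Set.subset_univ _) hf.1)
    obtain ⟨y, hyB, hy⟩ := hBcl 𝓕₀ (fun f hf => (h𝓕₀ hf).1) ⟨s, fun f hf => (h𝓕₀ hf).2⟩
    let S₀ : Set G := S₁ ∩ S
    let H : Subgroup G := Subgroup.closure (insert g (insert z (insert y S₀)))
    have hHfg : H.FG := by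
      refine (Subgroup.fg_iff H).mpr ⟨_, rfl, ?_⟩
      exact (((hS₁.inter_of_left S).insert y).insert z).insert g
    have hHB : H ≤ B := by
      refine (Subgroup.closure_le B).mpr ?_
      rintro x (rfl | rfl | rfl | hx)
      · exact hSB (Or.inl rfl)
      · exact hSB (Or.inr (Or.inl rfl))
      · exact hyB
      · exact hSB (Or.inr (Or.inr hx.2))
    have hgH : g ∈ H := Subgroup.subset_closure (Or.inl rfl)
    have hzH : z ∈ H := Subgroup.subset_closure (Or.inr (Or.inl rfl))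
    have hyH : y ∈ H := Subgroup.subset_closure (Or.inr (Or.inr (Or.inl rfl)))
    have hS₀H : ∀ x ∈ S₀, x ∈ H := fun x hx =>
      Subgroup.subset_closure (Or.inr (Or.inr (Or.inr hx)))
    let x₀ : G ⧸ M := ((1 : G) : G ⧸ M)
    have hfix : ∀ a : G, a • x₀ = x₀ ↔ a ∈ M := by
      intro a
      show ((a * 1 : G) : G ⧸ M) = ((1 : G) : G ⧸ M) ↔ _
      rw [eq_comm, QuotientGroup.eq]
      simp
    obtain ⟨K, ψ, hHK, hsK, hψH, hψs⟩ := hG.free_ext H hHfg s y hyH
      (fun h => hs (h ▸ hyB))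
      (fun f hf hfs => hN y hy f ⟨Words.mono hHB hf, hfs⟩)
      (MulAction.toPermHom G (G ⧸ M)) (Equiv.swap (g • x₀) (z • x₀))
    let P : Subgroup G :=
      ((MulAction.stabilizer (Equiv.Perm (G ⧸ M)) x₀).comap ψ).map K.subtype
    have hP : ∀ x : K, (x : G) ∈ P ↔ ψ x x₀ = x₀ := by
      intro x
      constructor
      · rintro ⟨x', hx', hxx⟩
        have : x' = x := Subtype.ext hxx
        rw [← this]
        exact hx'
      · intro hx
        exact ⟨x, hx, rfl⟩
    have hgx : g • x₀ ≠ x₀ := fun h => hg ((hfix g).mp h)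
    have hzx : z • x₀ ≠ x₀ := fun h => hz ((hfix z).mp h)
    have hle : Subgroup.closure S₁ ≤ P := by
      refine (Subgroup.closure_le P).mpr ?_
      intro x hx
      rcases hS₁S hx with hxS | rfl | rfl
      · have hxH : x ∈ H := hS₀H x ⟨hx, hxS⟩
        refine (hP ⟨x, hHK hxH⟩).mpr ?_
        rw [hψH _ hxH]
        exact (hfix x).mpr (Subgroup.subset_closure hxS)
      · refine (hP ⟨x, hsK⟩).mpr ?_
        rw [hψs _ rfl]
        exact Equiv.swap_apply_of_ne_of_ne hgx.symm hzx.symm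
      · refine (hP ((⟨z, hHK hzH⟩ : K)⁻¹ * ⟨s, hsK⟩ * ⟨g, hHK hgH⟩)).mpr ?_
        rw [map_mul, map_mul, map_inv, hψH ⟨z, hHK hzH⟩ hzH, hψH ⟨g, hHK hgH⟩ hgH,
          hψs ⟨s, hsK⟩ rfl]
        simp
    have := (hP ⟨g, hHK hgH⟩).mp (hle hg₁)
    rw [hψH _ hgH] at this
    exact hgx this
  · have h1 : g ∈ Subgroup.closure (insert g (S ∪ {s, z⁻¹ * s * g})) :=
      Subgroup.subset_closure (Or.inl rfl)
    have h2 : s ∈ Subgroup.closure (insert g (S ∪ {s, z⁻¹ * s * g})) :=
      Subgroup.subset_closure (Or.inr (Or.inr (Or.inl rfl)))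
    have h3 : z⁻¹ * s * g ∈ Subgroup.closure (insert g (S ∪ {s, z⁻¹ * s * g})) :=
      Subgroup.subset_closure (Or.inr (Or.inr (Or.inr rfl)))
    have h4 := mul_mem (mul_mem h2 h1) (inv_mem h3)
    simpa [mul_assoc] using h4

/-- The uncountable case: a supplement of `g` avoiding `g`. -/
theorem LocFree.exists_supp_uncountable {G : Type u} [Group G] (hG : LocFree G)
    (hunc : ℵ₀ < Cardinal.mk G) (g : G) (hg : g ≠ 1) :
    ∃ M : Subgroup G, g ∉ M ∧ ∀ z, z ∈ Subgroup.closure (insert g (M : Set G)) := by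
  classical
  obtain ⟨r, hr, hord⟩ := Cardinal.exists_ord_eq G
  have hstep : ∀ (z : G) (S : Set G), ∃ T : Set G, T.Finite ∧
      (Cardinal.mk S < Cardinal.mk G → g ∉ Subgroup.closure S →
        g ∉ Subgroup.closure (S ∪ T) ∧ z ∈ Subgroup.closure (insert g (S ∪ T))) := by
    intro z S
    by_cases h : Cardinal.mk S < Cardinal.mk G ∧ g ∉ Subgroup.closure S
    · obtain ⟨T, hT, h1, h2⟩ := hG.step_uncountable hunc g z S h.1 h.2
      exact ⟨T, hT, fun _ _ => ⟨h1, h2⟩⟩
    · exact ⟨∅, Set.finite_empty, fun h1 h2 => absurd ⟨h1, h2⟩ h⟩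
  choose nx hnxfin hnx using hstep
  let f : G → Set G := hr.wf.fix fun z rec => nx z (⋃ y : {y // r y z}, rec y.1 y.2)
  let U : G → Set G := fun z => ⋃ y : {y // r y z}, f y.1
  have hf : ∀ z, f z = nx z (U z) := fun z => hr.wf.fix_eq _ z
  have hffin : ∀ z, (f z).Finite := fun z => by rw [hf]; exact hnxfin _ _
  have hUc : ∀ z, Cardinal.mk (U z) < Cardinal.mk G := by
    intro z
    refine lt_of_le_of_lt (Cardinal.mk_iUnion_le _) ?_
    refine Cardinal.mul_lt_of_lt hunc.le (Cardinal.card_typein_lt z hord) ?_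
    refine lt_of_le_of_lt (ciSup_le' fun y => ?_) hunc
    exact (hffin y.1).lt_aleph0.le
  -- a finite subset of a union of the `f y` lies in one `U y ∪ f y`
  have hfin : ∀ (A : Set G), A.Finite → ∀ (p : G → Prop), (∀ x ∈ A, ∃ y, p y ∧ x ∈ f y) →
      A = ∅ ∨ ∃ y, p y ∧ A ⊆ U y ∪ f y := by
    intro A hA p
    induction A, hA using Set.Finite.induction_on with
    | empty => intro _; exact Or.inl rfl
    | @insert a A _ _ ih =>
      intro h
      right
      obtain ⟨y, hpy, hay⟩ := h a (Or.inl rfl)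
      rcases ih (fun x hx => h x (Or.inr hx)) with rfl | ⟨y', hpy', hA'⟩
      · exact ⟨y, hpy, by simpa using Or.inr hay⟩
      · rcases trichotomous_of r y y' with h1 | rfl | h1
        · refine ⟨y', hpy', Set.insert_subset ?_ hA'⟩
          exact Or.inl (Set.mem_iUnion.mpr ⟨⟨y, h1⟩, hay⟩)
        · exact ⟨y, hpy, Set.insert_subset (Or.inr hay) hA'⟩
        · refine ⟨y, hpy, Set.insert_subset (Or.inr hay) ?_⟩
          intro x hx
          left
          rcases hA' hx with h2 | h2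
          · obtain ⟨w, hw⟩ := Set.mem_iUnion.mp h2
            exact Set.mem_iUnion.mpr ⟨⟨w.1, trans_of r w.2 h1⟩, hw⟩
          · exact Set.mem_iUnion.mpr ⟨⟨y', h1⟩, h2⟩
  have hmain : ∀ z, g ∉ Subgroup.closure (U z ∪ f z) ∧
      z ∈ Subgroup.closure (insert g (U z ∪ f z)) := by
    intro z
    induction z using hr.wf.induction with
    | _ z ih =>
      rw [hf]
      refine hnx z (U z) (hUc z) ?_
      intro hgc
      obtain ⟨A, hA, hAU, hgA⟩ := exists_finite_subset_of_mem_closure hgc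
      rcases hfin A hA (fun y => r y z) (fun x hx => by
          obtain ⟨y, hy⟩ := Set.mem_iUnion.mp (hAU hx)
          exact ⟨y.1, y.2, hy⟩) with rfl | ⟨y, hy, hAy⟩
      · exact hg (by simpa using hgA)
      · exact (ih y hy).1 (Subgroup.closure_mono hAy hgA)
  refine ⟨Subgroup.closure (⋃ y, f y), ?_, ?_⟩
  · intro hgc
    obtain ⟨A, hA, hAU, hgA⟩ := exists_finite_subset_of_mem_closure hgc
    rcases hfin A hA (fun _ => True) (fun x hx => by
        obtain ⟨y, hy⟩ := Set.mem_iUnion.mp (hAU hx)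
        exact ⟨y, trivial, hy⟩) with rfl | ⟨y, -, hAy⟩
    · exact hg (by simpa using hgA)
    · exact (hmain y).1 (Subgroup.closure_mono hAy hgA)
  · intro z
    refine Subgroup.closure_mono (Set.insert_subset_insert ?_) (hmain z).2
    rintro x (hx | hx)
    · obtain ⟨y, hy⟩ := Set.mem_iUnion.mp hx
      exact Subgroup.subset_closure (Set.mem_iUnion.mpr ⟨y.1, hy⟩)
    · exact Subgroup.subset_closure (Set.mem_iUnion.mpr ⟨z, hx⟩)

end Pool.Agent.Lib.MP_f7bfdf_al
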