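import Mathlib
import Pool.Agent.Lib.MP_f7bfdf_al.Surgery
import Pool.Agent.Lib.MP_f7bfdf_al.Uncountable

set_option autoImplicit false

namespace Pool.Agent.Lib.MP_f7bfdf_al

universe u

theorem exists_two_of_not_comm {X F : Type u} [Group F] (b : FreeGroupBasis X F) (x y : F)
    (hxy : x * y ≠ y * x) : ∃ a₁ a₂ : X, a₁ ≠ a₂ := by
  by_contra h
  push Not at h
  obtain ⟨u, rfl⟩ := exists_wd b x
  obtain ⟨v, rfl⟩ := exists_wd b y
  apply hxy
  refine Commute.list_prod_left _ _ fun p hp => Commute.list_prod_right _ _ fun q hq => ?_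
  obtain ⟨⟨c, e⟩, -, rfl⟩ := List.mem_map.mp hp
  obtain ⟨⟨c', e'⟩, -, rfl⟩ := List.mem_map.mp hq
  obtain rfl := h c c'
  cases e <;> cases e' <;> simp [ltr]

theorem infinite_of_basis {X F : Type u} [Group F] (b : FreeGroupBasis X F) (a : X) :
    Infinite F := by
  have : Nonempty X := ⟨a⟩
  exact Infinite.of_injective b.repr.symm b.repr.symm.injective

/-- The invariant of the construction in the countable case. -/
def Inv {G : Type u} [Group G] (g a b : G) (M F : Subgroup G) : Prop :=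
  M ≤ F ∧ M.FG ∧ F.FG ∧ g ∈ F ∧ a ∈ F ∧ b ∈ F ∧ g ∉ M ∧ M.relIndex F = 0

theorem LocFree.step_countable {G : Type u} [Group G] (hG : LocFree G) {g a b : G}
    (hab : a * b ≠ b * a) (M F : Subgroup G) (h : Inv g a b M F) (z : G) :
    ∃ M' F' : Subgroup G, Inv g a b M' F' ∧ M ≤ M' ∧
      z ∈ Subgroup.closure (insert g (M' : Set G)) := by
  obtain ⟨hMF, hM, hF, hgF, haF, hbF, hg, hidx⟩ := h
  let F' : Subgroup G := F ⊔ Subgroup.closure {z}
  have hF' : F'.FG := hF.sup ⟨{z}, by simp⟩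
  have hFF' : F ≤ F' := le_sup_left
  have hzF' : z ∈ F' := (le_sup_right : Subgroup.closure {z} ≤ F') (Subgroup.subset_closure rfl)
  obtain ⟨X, _, ⟨bs⟩⟩ := hG.exists_basis F' hF'
  obtain ⟨a₁, a₂, h12⟩ := exists_two_of_not_comm bs ⟨a, hFF' haF⟩ ⟨b, hFF' hbF⟩
    (fun e => hab (congrArg Subtype.val e))
  have hMfg : (M.subgroupOf F').FG := by
    rw [Subgroup.fg_iff_submonoid_fg]
    refine Submonoid.FG.map_injective F'.subtype F'.subtype_injective ?_
    have := (Subgroup.fg_iff_submonoid_fg M).mp hM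
    rw [← Subgroup.map_subgroupOf_eq_of_le (hMF.trans hFF')] at this
    exact this
  obtain ⟨N, hMN, hNfg, hNidx, hgN, hzN⟩ := step_free bs a₁ a₂ h12 (M.subgroupOf F') hMfg
    (Subgroup.relIndex_eq_zero_of_le_right hFF' hidx) ⟨g, hFF' hgF⟩ ⟨z, hzF'⟩ hg
  refine ⟨N.map F'.subtype, F', ⟨Subgroup.map_subtype_le N, ?_, hF', hFF' hgF, hFF' haF,
    hFF' hbF, ?_, ?_⟩, ?_, ?_⟩
  · rw [Subgroup.fg_iff_submonoid_fg] at hNfg ⊢
    exact hNfg.map F'.subtype
  · rintro ⟨x, hx, hxg⟩
    have : x = ⟨g, hFF' hgF⟩ := Subtype.ext hxg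
    exact hgN (this ▸ hx)
  · show (Subgroup.comap F'.subtype (N.map F'.subtype)).index = 0
    rw [Subgroup.comap_map_eq_self_of_injective F'.subtype_injective]
    exact hNidx
  · intro x hx
    exact ⟨⟨x, hFF' (hMF hx)⟩, hMN hx, rfl⟩
  · have := Subgroup.mem_map_of_mem F'.subtype hzN
    rw [MonoidHom.map_closure, Set.image_insert_eq] at this
    exact this

/-- The countable case: a supplement of `g` avoiding `g`. -/
theorem LocFree.exists_supp_countable {G : Type u} [Group G] [Countable G] (hG : LocFree G)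
    {a b : G} (hab : a * b ≠ b * a) (g : G) (hg : g ≠ 1) :
    ∃ M : Subgroup G, g ∉ M ∧ ∀ z, z ∈ Subgroup.closure (insert g (M : Set G)) := by
  classical
  obtain ⟨e, he⟩ := exists_surjective_nat G
  have h0 : Inv g a b ⊥ (Subgroup.closure {g, a, b}) := by
    have hfg : (Subgroup.closure ({g, a, b} : Set G)).FG :=
      (Subgroup.fg_iff _).mpr ⟨_, rfl, Set.toFinite _⟩
    have haF : a ∈ Subgroup.closure ({g, a, b} : Set G) := Subgroup.subset_closure (by simp)
    have hbF : b ∈ Subgroup.closure ({g, a, b} : Set G) := Subgroup.subset_closure (by simp)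
    refine ⟨bot_le, Subgroup.FG.bot, hfg, Subgroup.subset_closure (by simp), haF, hbF,
      by simpa using hg, ?_⟩
    obtain ⟨X, _, ⟨bs⟩⟩ := hG.exists_basis _ hfg
    obtain ⟨a₁, -, -⟩ := exists_two_of_not_comm bs ⟨a, haF⟩ ⟨b, hbF⟩
      (fun e => hab (congrArg Subtype.val e))
    have := infinite_of_basis bs a₁
    rw [Subgroup.relIndex_bot_left]
    exact Nat.card_eq_zero_of_infinite
  let St := {p : Subgroup G × Subgroup G // Inv g a b p.1 p.2}
  have hstep : ∀ (s : St) (z : G), ∃ s' : St, s.1.1 ≤ s'.1.1 ∧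
      z ∈ Subgroup.closure (insert g (s'.1.1 : Set G)) := by
    intro s z
    obtain ⟨M', F', h1, h2, h3⟩ := hG.step_countable hab s.1.1 s.1.2 s.2 z
    exact ⟨⟨(M', F'), h1⟩, h2, h3⟩
  choose nx hnx1 hnx2 using hstep
  let sq : ℕ → St := fun n => Nat.rec ⟨(⊥, Subgroup.closure {g, a, b}), h0⟩
    (fun k s => nx s (e k)) n
  have hmono : Monotone fun n => (sq n).1.1 :=
    monotone_nat_of_le_succ fun n => hnx1 (sq n) (e n)
  refine ⟨⨆ n, (sq n).1.1, ?_, ?_⟩
  · intro h
    obtain ⟨n, hn⟩ := (Subgroup.mem_iSup_of_directed hmono.directed_le).mp h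
    exact (sq n).2.2.2.2.2.2.2.1 hn
  · intro z
    obtain ⟨n, rfl⟩ := he z
    refine Subgroup.closure_mono (Set.insert_subset_insert ?_) (hnx2 (sq n) (e n))
    exact le_iSup (fun n => (sq n).1.1) (n + 1)

/-- A supplement of `g` avoiding `g` lies in a maximal subgroup avoiding `g`. -/
theorem exists_coatom {G : Type u} [Group G] (g : G) (M : Subgroup G) (hg : g ∉ M)
    (hM : ∀ z, z ∈ Subgroup.closure (insert g (M : Set G))) :
    ∃ N : Subgroup G, IsCoatom N ∧ g ∉ N := by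
  obtain ⟨N, hMN, hN⟩ := zorn_le_nonempty₀ {N : Subgroup G | g ∉ N} (fun c hc hchain y hy =>
    ⟨sSup c, fun h => by
      obtain ⟨s, hs, hgs⟩ := (Subgroup.mem_sSup_of_directedOn ⟨y, hy⟩ hchain.directedOn).mp h
      exact hc hs hgs, fun z hz => le_sSup hz⟩) M hg
  refine ⟨N, ⟨fun h => hN.1 (h ▸ Subgroup.mem_top g), fun N' hN' => ?_⟩, hN.1⟩
  have hgN' : g ∈ N' := by
    by_contra h
    exact absurd (hN.2 h hN'.le) (not_le_of_gt hN')
  refine eq_top_iff.mpr fun z _ => ?_
  refine (Subgroup.closure_le N').mpr ?_ (hM z)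
  rintro x (rfl | hx)
  · exact hgN'
  · exact hN'.le (hMN hx)

/-- A nonabelian locally free group has trivial Frattini subgroup. -/
theorem LocFree.frattini_eq_bot {G : Type u} [Group G] (hG : LocFree G) {a b : G}
    (hab : a * b ≠ b * a) : frattini G = ⊥ := by
  refine eq_bot_iff.mpr fun g hg => ?_
  by_contra hg1
  rw [Subgroup.mem_bot] at hg1
  have : ∃ M : Subgroup G, g ∉ M ∧ ∀ z, z ∈ Subgroup.closure (insert g (M : Set G)) := by
    rcases le_or_gt (Cardinal.mk G) Cardinal.aleph0 with h | h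
    · have : Countable G := Cardinal.mk_le_aleph0_iff.mp h
      exact hG.exists_supp_countable hab g hg1
    · exact hG.exists_supp_uncountable h g hg1
  obtain ⟨M, h1, h2⟩ := this
  obtain ⟨N, hN, hgN⟩ := exists_coatom g M h1 h2
  exact hgN (frattini_le_coatom hN hg)

end Pool.Agent.Lib.MP_f7bfdf_al
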