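import Mathlib
import Pool.Agent.Lib.MP_f7bfdf_al.Surgery

set_option autoImplicit false

namespace Pool.Agent.Lib.MP_f7bfdf_al

universe u

section
variable {X F Ω : Type*} [Group F] [MulAction F Ω] (f : X → F) (V : Set Ω)

theorem length_ltr_ge (c : X × Bool) (p : Pt f V) :
    p.1.2.length ≤ (ltr (sig f V) c p).1.2.length + 1 := by
  rw [ltr_sig]
  rcases p with ⟨⟨v, _ | ⟨d, w⟩⟩, hp'⟩
  · simp
  · simp only [stp]
    split_ifs with h
    · simp
    · simp only [List.length_cons]; omega

theorem length_wd_ge (u : List (X × Bool)) (p : Pt f V) :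
    p.1.2.length ≤ (wd (sig f V) u p).1.2.length + u.length := by
  induction u with
  | nil => simp
  | cons c u ih =>
    rw [wd_cons, Equiv.Perm.mul_apply]
    have := length_ltr_ge f V c (wd (sig f V) u p)
    simp only [List.length_cons]
    omega

/-- Finitely many deep points can be given a common head letter. -/
theorem common_head (a₁ a₂ : X) (h12 : a₁ ≠ a₂) (l : List (Pt f V))
    (hl : ∀ p ∈ l, l.length ≤ p.1.2.length) :
    ∃ (u : List (X × Bool)) (d : X × Bool), u.length ≤ l.length ∧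
      ∀ p ∈ l, ∃ w, (wd (sig f V) u p).1.2 = d :: w := by
  induction l with
  | nil => exact ⟨[], (a₁, true), le_rfl, by simp⟩
  | cons p l ih =>
    simp only [List.length_cons] at hl
    obtain ⟨u, d, hu, hd⟩ := ih fun q hq => by
      have := hl q (List.mem_cons_of_mem _ hq); omega
    have h1 := length_wd_ge f V u p
    have h2 := hl p List.mem_cons_self
    obtain ⟨e, w, he⟩ : ∃ e w, (wd (sig f V) u p).1.2 = e :: w := by
      rcases hw : (wd (sig f V) u p).1.2 with _ | ⟨e, w⟩
      · rw [hw] at h1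
        simp only [List.length_nil] at h1
        omega
      · exact ⟨e, w, rfl⟩
    obtain ⟨c, -, -, hc1, hc2, -⟩ := exists_letter a₁ a₂ h12 d e e
    refine ⟨c :: u, c, by simp only [List.length_cons]; omega, fun q hq => ?_⟩
    rw [wd_cons, Equiv.Perm.mul_apply]
    rcases List.mem_cons.mp hq with rfl | hq
    · exact ⟨_, by rw [ltr_push f V c e _ w he hc2]⟩
    · obtain ⟨w', hw'⟩ := hd q hq
      exact ⟨_, by rw [ltr_push f V c d _ w' hw' hc1]⟩

theorem wd_reduced (u : List (X × Bool)) (c : X × Bool) (w : List (X × Bool)) (p : Pt f V)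
    (hp : p.1.2 = c :: w) (hu : FreeGroup.IsReduced (u ++ [c])) :
    (wd (sig f V) u p).1.2 = u ++ c :: w := by
  induction u with
  | nil => simpa using hp
  | cons e u ih =>
    rw [wd_cons, Equiv.Perm.mul_apply]
    cases u with
    | nil =>
      have h1 := (FreeGroup.isReduced_cons_cons.mp hu).1
      rw [ltr_push f V e c _ w (by simpa using hp) (by
        rintro rfl
        have := h1 rfl
        simp [linv] at this)]
      simpa using hp
    | cons e' u =>
      have h1 := FreeGroup.isReduced_cons_cons.mp hu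
      have h2 := ih h1.2
      rw [ltr_push f V e e' _ (u ++ c :: w) (by simpa using h2) (by
        rintro rfl
        have := h1.1 rfl
        simp [linv] at this)]
      simpa using h2

end

theorem exists_wd_reduced {X F : Type*} [Group F] (b : FreeGroupBasis X F) (x : F) :
    ∃ u, FreeGroup.IsReduced u ∧ wd b u = x := by
  classical
  obtain ⟨y, rfl⟩ := b.repr.symm.surjective x
  refine ⟨y.toWord, FreeGroup.isReduced_toWord, ?_⟩
  have h1 : (b.repr.symm : FreeGroup X →* F) = FreeGroup.lift b := by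
    refine FreeGroup.ext_hom _ _ fun i => ?_
    rw [FreeGroup.lift_apply_of]
    rfl
  have h2 := DFunLike.congr_fun h1 (FreeGroup.mk y.toWord)
  rw [FreeGroup.lift_mk, FreeGroup.mk_toWord] at h2
  exact h2.symm

/-- A finitely generated subgroup of infinite index in a nonabelian free group is core-free. -/
theorem core_free {X F : Type u} [Group F] (b : FreeGroupBasis X F) (a₁ a₂ : X) (h12 : a₁ ≠ a₂)
    (M : Subgroup F) (hM : M.FG) (hidx : M.index = 0) (g : F) (hg : g ≠ 1) :
    ∃ x : F, x⁻¹ * g * x ∉ M := by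
  classical
  obtain ⟨S, hS⟩ := hM
  choose wo hwo using exists_wd b
  let x₀ : F ⧸ M := ((1 : F) : F ⧸ M)
  have hfix : ∀ a : F, a • x₀ = x₀ ↔ a ∈ M := by
    intro a
    show ((a * 1 : F) : F ⧸ M) = ((1 : F) : F ⧸ M) ↔ _
    rw [eq_comm, QuotientGroup.eq]
    simp
  let Vf : Finset (F ⧸ M) := insert x₀
    (S.biUnion fun m => (wo m).tails.toFinset.image fun u => wd b u • x₀)
  let V : Set (F ⧸ M) := Vf
  have hx₀V : x₀ ∈ V := Finset.mem_insert_self _ _
  obtain ⟨h, hh⟩ := exists_avoid (F := F) {x₀} Vf (fun a _ => by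
    rw [MulAction.index_stabilizer_of_transitive]
    exact hidx)
  let σ := sig (b : X → F) V
  let p₀ := base (b : X → F) V x₀
  obtain ⟨c₁, w₁, hc₁⟩ : ∃ c w, (wd σ (wo h) p₀).1.2 = c :: w := by
    rcases hw : (wd σ (wo h) p₀).1.2 with _ | ⟨c, w⟩
    · exfalso
      have h1 := proj_wd (b : X → F) V (wo h) p₀
      rw [proj_base, hwo] at h1
      have h2 := fst_mem_wd (b : X → F) V (wo h) p₀ hx₀V
      apply hh x₀ (by simp)
      rw [← h1]
      show wd b (wd σ (wo h) p₀).1.2 • (wd σ (wo h) p₀).1.1 ∈ Vf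
      rw [hw, wd_nil, one_smul]
      exact h2
    · exact ⟨c, w, rfl⟩
  obtain ⟨u, hu, hug⟩ := exists_wd_reduced b g
  obtain ⟨u', c, rfl⟩ : ∃ u' c, u = u' ++ [c] := by
    rcases List.eq_nil_or_concat u with rfl | ⟨u', c, rfl⟩
    · exact absurd hug.symm hg
    · exact ⟨u', c, by simp⟩
  obtain ⟨d, -, -, hd1, hd2, -⟩ := exists_letter a₁ a₂ h12 c₁ c c
  let Ψ : F →* Equiv.Perm (Pt (b : X → F) V) := b.lift σ
  have hΨ : ∀ u, Ψ (wd b u) = wd σ u := lift_wd b σ
  have hMP : ∀ m ∈ M, Ψ m p₀ = p₀ := by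
    have : M ≤ (MulAction.stabilizer (Equiv.Perm (Pt (b : X → F) V)) p₀).comap Ψ := by
      refine hS.ge.trans ((Subgroup.closure_le _).mpr ?_)
      intro m hm
      show Ψ m p₀ = p₀
      rw [← hwo m, hΨ, wd_base]
      · rw [hwo, (hfix m).mpr (hS ▸ Subgroup.subset_closure hm)]
      · intro u' hu'
        refine Finset.mem_insert_of_mem (Finset.mem_biUnion.mpr ⟨m, hm, ?_⟩)
        exact Finset.mem_image.mpr ⟨u', by simpa using hu', rfl⟩
    exact fun m hm => this hm
  refine ⟨wd b (d :: wo h), fun hx => ?_⟩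
  have h1 := hMP _ hx
  rw [map_mul, map_mul, map_inv, Equiv.Perm.mul_apply, Equiv.Perm.mul_apply,
    Equiv.Perm.inv_eq_iff_eq, ← hug, hΨ, hΨ] at h1
  have h2 : (wd σ (d :: wo h) p₀).1.2 = d :: c₁ :: w₁ := by
    rw [wd_cons, Equiv.Perm.mul_apply, ltr_push (b : X → F) V d c₁ _ w₁ hc₁ hd1, hc₁]
  have h3 := wd_reduced (b : X → F) V (u' ++ [c]) d (c₁ :: w₁) _ h2 (by
    rw [List.append_assoc]
    refine List.isChain_split.mpr ⟨hu, ?_⟩
    refine List.isChain_pair.mpr fun e => ?_
    by_contra hne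
    apply hd2
    refine Prod.ext e ?_
    rcases c with ⟨c, _ | _⟩ <;> rcases d with ⟨d, _ | _⟩ <;> simp_all [linv])
  have h4 := congrArg (fun p : Pt (b : X → F) V => p.1.2.length) h1
  simp only [σ] at h4 h2
  rw [h3, h2] at h4
  simp at h4
  omega

/-- The successor step for tuples inside a nonabelian free group. -/
theorem step_tuple {X F : Type u} [Group F] [Finite X] (b : FreeGroupBasis X F) (a₁ a₂ : X)
    (h12 : a₁ ≠ a₂) (M : Subgroup F) (hM : M.FG) (hidx : M.index = 0) (A : Finset F)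
    (hA : ∀ a ∈ A, a ∉ M) {k : ℕ} (x y : Fin k → F) (hx : ∀ i j, (x i)⁻¹ * x j ∈ M → i = j)
    (hy : ∀ i j, (y i)⁻¹ * y j ∈ M → i = j) :
    ∃ M' : Subgroup F, M ≤ M' ∧ M'.FG ∧ M'.index = 0 ∧ (∀ a ∈ A, a ∉ M') ∧
      ∃ s, ∀ i, (y i)⁻¹ * s * x i ∈ M' := by
  classical
  obtain ⟨S, hS⟩ := hM
  choose wo hwo using exists_wd b
  let x₀ : F ⧸ M := ((1 : F) : F ⧸ M)
  have hfix : ∀ a : F, a • x₀ = x₀ ↔ a ∈ M := by
    intro a
    show ((a * 1 : F) : F ⧸ M) = ((1 : F) : F ⧸ M) ↔ _
    rw [eq_comm, QuotientGroup.eq]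
    simp
  let Vf : Finset (F ⧸ M) := insert x₀
    (S.biUnion fun m => (wo m).tails.toFinset.image fun u => wd b u • x₀)
  let V : Set (F ⧸ M) := Vf
  have hx₀V : x₀ ∈ V := Finset.mem_insert_self _ _
  let E : Finset F := insert 1 (Finset.univ.image x ∪ Finset.univ.image y)
  have hE1 : (1 : F) ∈ E := Finset.mem_insert_self _ _
  have hEx : ∀ i, x i ∈ E := fun i => by simp [E]
  have hEy : ∀ i, y i ∈ E := fun i => by simp [E]
  let Vb : Finset (F ⧸ M) := (Vf ×ˢ (List.finite_length_le (X × Bool) E.card).toFinset).image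
    fun p => wd b p.2 • p.1
  obtain ⟨h, hh⟩ := exists_avoid (F := F) (E.image fun e => e • x₀) Vb (fun a _ => by
    rw [MulAction.index_stabilizer_of_transitive]
    exact hidx)
  let σ := sig (b : X → F) V
  let p₀ := base (b : X → F) V x₀
  have hproj : ∀ u, proj (b : X → F) V (wd σ u p₀) = wd b u • x₀ := by
    intro u
    rw [proj_wd, proj_base]
  have hlong : ∀ e ∈ E, E.card ≤ (wd σ (wo h ++ wo e) p₀).1.2.length := by
    intro e he
    by_contra hc
    apply hh (e • x₀) (Finset.mem_image_of_mem _ he)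
    refine Finset.mem_image.mpr ⟨(wd σ (wo h ++ wo e) p₀).1, ?_, ?_⟩
    · refine Finset.mem_product.mpr ⟨fst_mem_wd (b : X → F) V _ p₀ hx₀V, ?_⟩
      simpa using (not_le.mp hc).le
    · have := hproj (wo h ++ wo e)
      rw [wd_append b, hwo, hwo, mul_smul] at this
      exact this
  obtain ⟨u₁, d₀, -, hu₁⟩ := common_head (b : X → F) V a₁ a₂ h12
    (E.toList.map fun e => wd σ (wo h ++ wo e) p₀) (by
      intro p hp
      obtain ⟨e, he, rfl⟩ := List.mem_map.mp hp
      simpa using hlong e (Finset.mem_toList.mp he))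
  let W : List (X × Bool) := u₁ ++ wo h
  have hW : ∀ e ∈ E, ∃ w, (wd σ (W ++ wo e) p₀).1.2 = d₀ :: w := by
    intro e he
    have := hu₁ _ (List.mem_map_of_mem (Finset.mem_toList.mpr he))
    simp only [W, List.append_assoc]
    rw [wd_append, Equiv.Perm.mul_apply]
    exact this
  choose! wt hwt using hW
  let n₀ : ℕ := W.length + (E.sup fun m => (wo m).length) + (S.sup fun m => (wo m).length) +
    A.sup fun m => (wo m).length
  obtain ⟨d, β, hdβ, hd₀, -, -⟩ := exists_letter a₁ a₂ h12 d₀ d₀ d₀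
  have hdβ' : d ≠ (β, true) := fun e => hdβ (congrArg Prod.fst e)
  have hrun2 : ∀ (u : List (X × Bool)) (c : X × Bool) (w : List (X × Bool)),
      (wd σ u p₀).1.2 = c :: w → c ≠ linv d → ∀ j : ℕ,
      (wd σ (List.replicate j d ++ u) p₀).1 =
        ((wd σ u p₀).1.1, List.replicate j d ++ c :: w) := by
    intro u c w hu hc j
    induction j with
    | zero => simp [← hu]
    | succ j ih =>
      rw [List.replicate_succ, List.cons_append, wd_cons, Equiv.Perm.mul_apply]
      cases j with
      | zero =>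
        rw [ltr_push (b : X → F) V d c _ w (by simpa using hu) hc, ih]
        simp
      | succ j =>
        rw [ltr_push (b : X → F) V d d _ (List.replicate j d ++ c :: w)
          (by rw [ih]; simp [List.replicate_succ]) (linv_ne d), ih]
        simp
  have hrun3 : ∀ (u : List (X × Bool)) (c : X × Bool) (w : List (X × Bool)),
      (wd σ u p₀).1.2 = c :: w → c ≠ linv d → ∀ k : ℕ,
      (wd σ (List.replicate k (β, true) ++ (List.replicate (n₀ + 1) d ++ u)) p₀).1 =
        ((wd σ u p₀).1.1, List.replicate k (β, true) ++ (List.replicate (n₀ + 1) d ++ c :: w)) := by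
    intro u c w hu hc k
    induction k with
    | zero => simpa using hrun2 u c w hu hc (n₀ + 1)
    | succ k ih =>
      rw [List.replicate_succ (n := k), List.cons_append, wd_cons, Equiv.Perm.mul_apply]
      cases k with
      | zero =>
        rw [ltr_push (b : X → F) V (β, true) d _ (List.replicate n₀ d ++ c :: w)
          (by rw [ih]; simp [List.replicate_succ])
          (fun e => hdβ (congrArg Prod.fst e)), ih]
        simp
      | succ k =>
        rw [ltr_push (b : X → F) V (β, true) (β, true) _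
          (List.replicate k (β, true) ++ (List.replicate (n₀ + 1) d ++ c :: w))
          (by rw [ih]; simp [List.replicate_succ (n := k)]) (linv_ne _), ih]
        simp
  let L : List (X × Bool) := List.replicate 1 (β, true) ++ (List.replicate (n₀ + 1) d ++ W)
  let P : F → Pt (b : X → F) V := fun e => wd σ (L ++ wo e) p₀
  have hP : ∀ e ∈ E, (P e).1.2 = (β, true) :: (List.replicate (n₀ + 1) d ++ d₀ :: wt e) := by
    intro e he
    simp only [P, L, List.append_assoc]
    rw [hrun3 _ _ _ (hwt e he) hd₀ 1]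
    simp
  have hPinj : ∀ e e', P e = P e' → e⁻¹ * e' ∈ M := by
    intro e e' h1
    have := congrArg (proj (b : X → F) V) h1
    simp only [P] at this
    rw [hproj, hproj, wd_append b L, wd_append b L, hwo, hwo, mul_smul, mul_smul] at this
    refine (hfix _).mp ?_
    rw [mul_smul, ← smul_left_cancel _ this, inv_smul_smul]
  let α := d.1
  have hαβ : ((β, true) : X × Bool) ≠ linv (α, false) := fun e => hdβ (congrArg Prod.fst e).symm
  have hPd : ∀ e ∈ E, Deep (β, true) n₀ (P e).1.2 := fun e he =>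
    ⟨[], _, hP e he, by simp; omega⟩
  have hQd : ∀ e ∈ E, Deep (β, true) n₀ ((σ α)⁻¹ (P e)).1.2 := by
    intro e he
    have := ltr_push (b : X → F) V (α, false) (β, true) (P e) _ (hP e he) hαβ
    refine ⟨[(α, false)], List.replicate (n₀ + 1) d ++ d₀ :: wt e, ?_, by simp; omega⟩
    have h2 := congrArg Prod.snd this
    rw [hP e he] at h2
    exact h2
  obtain ⟨π₀, hπ₀⟩ := Equiv.Perm.exists_extending_pair
    (β := {q : Pt (b : X → F) V // Deep (β, true) n₀ q.1.2})
    (fun i : Fin k => ⟨P (x i), hPd _ (hEx i)⟩) (fun i : Fin k => ⟨(σ α)⁻¹ (P (y i)), hQd _ (hEy i)⟩)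
    (fun i j hij => hx i j (hPinj _ _ (congrArg Subtype.val hij)))
    (fun i j hij => hy i j (hPinj _ _ ((σ α)⁻¹.injective (congrArg Subtype.val hij))))
  let π : Equiv.Perm (Pt (b : X → F) V) := Equiv.Perm.ofSubtype π₀
  have hπfix : ∀ q : Pt (b : X → F) V, ¬ Deep (β, true) n₀ q.1.2 → π q = q := fun q hq =>
    Equiv.Perm.ofSubtype_apply_of_not_mem π₀ hq
  have hπ1 : ∀ i, π (P (x i)) = (σ α)⁻¹ (P (y i)) := fun i =>
    (Equiv.Perm.ofSubtype_apply_of_mem π₀ (hPd _ (hEx i))).trans (congrArg Subtype.val (hπ₀ i))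
  let τ : X → Equiv.Perm (Pt (b : X → F) V) := Function.update σ α (σ α * π)
  have hshort : ∀ u : List (X × Bool), u.length ≤ n₀ → ¬ Deep (β, true) n₀ (wd σ u p₀).1.2 := by
    intro u hu
    refine not_deep_of_length ?_
    have := length_wd (b : X → F) V u p₀
    simp only [p₀, base, List.length_nil] at this
    simp only [p₀, base, σ]
    omega
  have hag1 : ∀ u : List (X × Bool), u.length ≤ n₀ → wd τ u p₀ = wd σ u p₀ := by
    intro u
    induction u with
    | nil => intro _; rfl
    | cons c u ih =>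
      intro hu
      have hu' : u.length ≤ n₀ := by simp only [List.length_cons] at hu; omega
      rw [wd_cons, wd_cons, Equiv.Perm.mul_apply, Equiv.Perm.mul_apply, ih hu']
      refine ltr_update_of_fixed σ α π c _ (hπfix _ (hshort u hu')) (hπfix _ ?_)
      have := hshort (c :: u) hu
      rwa [wd_cons] at this
  have hag2 : ∀ (u : List (X × Bool)) (c : X × Bool) (w : List (X × Bool)),
      (wd σ u p₀).1.2 = c :: w → c ≠ linv d → u.length ≤ n₀ → ∀ j : ℕ,
      wd τ (List.replicate j d ++ u) p₀ = wd σ (List.replicate j d ++ u) p₀ := by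
    intro u c w hu hc hlen j
    have hnd : ∀ j : ℕ, ¬ Deep (β, true) n₀ (wd σ (List.replicate j d ++ u) p₀).1.2 := by
      intro j
      rw [hrun2 u c w hu hc j]
      induction j with
      | zero => simpa [← hu] using hshort u hlen
      | succ j ih => exact not_deep_cons hdβ' ih
    induction j with
    | zero => exact hag1 u hlen
    | succ j ih =>
      rw [List.replicate_succ, List.cons_append, wd_cons, wd_cons, Equiv.Perm.mul_apply,
        Equiv.Perm.mul_apply, ih]
      refine ltr_update_of_fixed σ α π d _ (hπfix _ (hnd j)) (hπfix _ ?_)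
      have := hnd (j + 1)
      rwa [List.replicate_succ, List.cons_append, wd_cons] at this
  have hag3 : ∀ (u : List (X × Bool)) (c : X × Bool) (w : List (X × Bool)),
      (wd σ u p₀).1.2 = c :: w → c ≠ linv d → u.length ≤ n₀ → ∀ k : ℕ,
      wd τ (List.replicate k (β, true) ++ (List.replicate (n₀ + 1) d ++ u)) p₀ =
        wd σ (List.replicate k (β, true) ++ (List.replicate (n₀ + 1) d ++ u)) p₀ := by
    intro u c w hu hc hlen k
    induction k with
    | zero => exact hag2 u c w hu hc hlen (n₀ + 1)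
    | succ k ih =>
      rw [List.replicate_succ (n := k), List.cons_append, wd_cons, wd_cons, Equiv.Perm.mul_apply,
        Equiv.Perm.mul_apply, ih, ltr_update_of_ne σ α π (β, true) (Ne.symm hdβ)]
  let Ψ : F →* Equiv.Perm (Pt (b : X → F) V) := b.lift τ
  have hΨ : ∀ u, Ψ (wd b u) = wd τ u := lift_wd b τ
  let St : Subgroup F := (MulAction.stabilizer (Equiv.Perm (Pt (b : X → F) V)) p₀).comap Ψ
  have hSt : ∀ x, x ∈ St ↔ Ψ x p₀ = p₀ := fun x => Iff.rfl
  have hlenE : ∀ e ∈ E, (W ++ wo e).length ≤ n₀ := by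
    intro e he
    have : (wo e).length ≤ E.sup fun m => (wo m).length :=
      Finset.le_sup (f := fun m => (wo m).length) he
    simp only [n₀, List.length_append (as := W)]
    omega
  have hMP : M ≤ St := by
    refine hS.ge.trans ((Subgroup.closure_le _).mpr ?_)
    intro m hm
    refine (hSt m).mpr ?_
    have hlen : (wo m).length ≤ n₀ := by
      have : (wo m).length ≤ S.sup fun m => (wo m).length :=
        Finset.le_sup (f := fun m => (wo m).length) hm
      simp only [n₀]
      omega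
    rw [← hwo m, hΨ, hag1 _ hlen, wd_base]
    · rw [hwo, (hfix m).mpr (hS ▸ Subgroup.subset_closure hm)]
    · intro u' hu'
      refine Finset.mem_insert_of_mem (Finset.mem_biUnion.mpr ⟨m, hm, ?_⟩)
      exact Finset.mem_image.mpr ⟨u', by simpa using hu', rfl⟩
  have hgP : ∀ g ∈ A, g ∉ St := by
    intro g hg hgP
    have h1 := (hSt g).mp hgP
    have hlen : (wo g).length ≤ n₀ := by
      have : (wo g).length ≤ A.sup fun m => (wo m).length :=
        Finset.le_sup (f := fun m => (wo m).length) hg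
      simp only [n₀]
      omega
    rw [← hwo g, hΨ, hag1 _ hlen] at h1
    have h2 := congrArg (proj (b : X → F) V) h1
    rw [hproj, hwo, proj_base] at h2
    exact hA g hg ((hfix g).mp h2)
  let H : F := wd b L
  have hH : ∀ e ∈ E, Ψ (H * e) p₀ = P e := by
    intro e he
    have := hag3 _ _ _ (hwt e he) hd₀ (hlenE e he) 1
    conv_lhs => rw [← hwo e, ← wd_append, hΨ]
    simp only [P, L, List.append_assoc] at this ⊢
    exact this
  have hΨα : Ψ (b α) = σ α * π := by simp [Ψ, τ]
  let s : F := H⁻¹ * b α * H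
  have hsP : ∀ i, (y i)⁻¹ * s * x i ∈ St := by
    intro i
    refine (hSt _).mpr ?_
    have : (y i)⁻¹ * s * x i = (H * y i)⁻¹ * (b α * (H * x i)) := by simp [s, mul_assoc]
    rw [this, map_mul, map_inv, map_mul _ (b α), Equiv.Perm.mul_apply, Equiv.Perm.mul_apply,
      hH _ (hEx i), hΨα, Equiv.Perm.mul_apply, hπ1, Equiv.Perm.inv_eq_iff_eq, hH _ (hEy i)]
    simp
  have hPidx : St.index = 0 := by
    rw [← Subgroup.not_finiteIndex_iff, Subgroup.finiteIndex_iff_finite_quotient,
      not_finite_iff_infinite]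
    refine Infinite.of_injective (fun j : ℕ => ((wd b (List.replicate j (β, true) ++
      (List.replicate (n₀ + 1) d ++ (W ++ wo 1))) : F) : F ⧸ St)) ?_
    intro i j hij
    have h1 := (hSt _).mp (QuotientGroup.eq.mp hij)
    rw [map_mul, map_inv, Equiv.Perm.mul_apply, Equiv.Perm.inv_eq_iff_eq, hΨ, hΨ,
      hag3 _ _ _ (hwt 1 hE1) hd₀ (hlenE 1 hE1), hag3 _ _ _ (hwt 1 hE1) hd₀ (hlenE 1 hE1)] at h1
    have h2 := congrArg (fun p : Pt (b : X → F) V => p.1.2.length) h1
    rw [hrun3 _ _ _ (hwt 1 hE1) hd₀, hrun3 _ _ _ (hwt 1 hE1) hd₀] at h2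
    simp only [List.length_append, List.length_replicate] at h2
    omega
  let M' : Subgroup F := Subgroup.closure (Set.range (fun i => (y i)⁻¹ * s * x i) ∪ (S : Set F))
  have hM'P : M' ≤ St := by
    refine (Subgroup.closure_le St).mpr ?_
    rintro _ (⟨i, rfl⟩ | hx)
    · exact hsP i
    · exact hMP (hS ▸ Subgroup.subset_closure hx)
  refine ⟨M', ?_, ?_, ?_, fun g hg hgM => hgP g hg (hM'P hgM), s, fun i => ?_⟩
  · exact hS.ge.trans (Subgroup.closure_mono Set.subset_union_right)
  · exact (Subgroup.fg_iff M').mpr ⟨_, rfl, (Set.finite_range _).union S.finite_toSet⟩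
  · exact Nat.eq_zero_of_zero_dvd (hPidx ▸ Subgroup.index_dvd_of_le hM'P)
  · exact Subgroup.subset_closure (Or.inl ⟨i, rfl⟩)

end Pool.Agent.Lib.MP_f7bfdf_al
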