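import Mathlib
import Pool.Agent.Lib.MP_f7bfdf_al.Countable
import Pool.Agent.Lib.MP_f7bfdf_al.HTFree

set_option autoImplicit false

namespace Pool.Agent.Lib.MP_f7bfdf_al

universe u

/-- Tasks: an element that must act non-trivially, and a pair of tuples to be matched. -/
abbrev HTask (G : Type u) : Type u := G × (Σ n : ℕ, Fin n → G × G)

/-- The task `z` is met by the subgroup `M` and the protected set `A`. -/
def Done {G : Type u} [Group G] (z : HTask G) (M : Subgroup G) (A : Set G) : Prop :=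
  (z.1 = 1 ∨ ∃ x, x⁻¹ * z.1 * x ∈ A) ∧
    ((∀ i j, (z.2.2 i).1⁻¹ * (z.2.2 j).1 ∈ M → i = j) →
      (∀ i j, (z.2.2 i).2⁻¹ * (z.2.2 j).2 ∈ M → i = j) →
        ∃ s, ∀ i, (z.2.2 i).2⁻¹ * s * (z.2.2 i).1 ∈ M)

theorem Done.mono {G : Type u} [Group G] {z : HTask G} {M M' : Subgroup G} {A A' : Set G}
    (h : Done z M A) (hM : M ≤ M') (hA : A ⊆ A') : Done z M' A' := by
  refine ⟨h.1.imp_right fun ⟨x, hx⟩ => ⟨x, hA hx⟩, fun h1 h2 => ?_⟩
  obtain ⟨s, hs⟩ := h.2 (fun i j hij => h1 i j (hM hij)) (fun i j hij => h2 i j (hM hij))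
  exact ⟨s, fun i => hM (hs i)⟩

/-- The invariant of the construction in the countable case. -/
def InvT {G : Type u} [Group G] (a b : G) (M F : Subgroup G) (A : Set G) : Prop :=
  M ≤ F ∧ M.FG ∧ F.FG ∧ a ∈ F ∧ b ∈ F ∧ M.relIndex F = 0 ∧ A.Finite ∧ ∀ g ∈ A, g ∉ M

theorem LocFree.stepT_countable {G : Type u} [Group G] (hG : LocFree G) {a b : G}
    (hab : a * b ≠ b * a) (M F : Subgroup G) (A : Set G) (h : InvT a b M F A) (z : HTask G) :
    ∃ (M' F' : Subgroup G) (A' : Set G), InvT a b M' F' A' ∧ M ≤ M' ∧ A ⊆ A' ∧ Done z M' A' := by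
  classical
  obtain ⟨hMF, hM, hF, haF, hbF, hidx, hAf, hA⟩ := h
  obtain ⟨g, k, xy⟩ := z
  let T : Set G := insert g (A ∪ (Set.range (fun i => (xy i).1) ∪ Set.range fun i => (xy i).2))
  have hTf : T.Finite := (hAf.union ((Set.finite_range _).union (Set.finite_range _))).insert g
  let F' : Subgroup G := F ⊔ Subgroup.closure T
  have hF' : F'.FG := hF.sup ((Subgroup.fg_iff _).mpr ⟨T, rfl, hTf⟩)
  have hFF' : F ≤ F' := le_sup_left
  have hTF' : ∀ x ∈ T, x ∈ F' := fun x hx =>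
    (le_sup_right : Subgroup.closure T ≤ F') (Subgroup.subset_closure hx)
  have hgF' : g ∈ F' := hTF' g (Or.inl rfl)
  have hxF' : ∀ i, (xy i).1 ∈ F' := fun i => hTF' _ (Or.inr (Or.inr (Or.inl ⟨i, rfl⟩)))
  have hyF' : ∀ i, (xy i).2 ∈ F' := fun i => hTF' _ (Or.inr (Or.inr (Or.inr ⟨i, rfl⟩)))
  obtain ⟨X, _, ⟨bs⟩⟩ := hG.exists_basis F' hF'
  obtain ⟨a₁, a₂, h12⟩ := exists_two_of_not_comm bs ⟨a, hFF' haF⟩ ⟨b, hFF' hbF⟩
    (fun e => hab (congrArg Subtype.val e))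
  have hMfg : (M.subgroupOf F').FG := by
    rw [Subgroup.fg_iff_submonoid_fg]
    refine Submonoid.FG.map_injective F'.subtype F'.subtype_injective ?_
    have := (Subgroup.fg_iff_submonoid_fg M).mp hM
    rw [← Subgroup.map_subgroupOf_eq_of_le (hMF.trans hFF')] at this
    exact this
  have hidx' : M.relIndex F' = 0 := Subgroup.relIndex_eq_zero_of_le_right hFF' hidx
  obtain ⟨A₁, hA₁f, hAA₁, hA₁F, hA₁M, hA₁g⟩ : ∃ A₁ : Set G, A₁.Finite ∧ A ⊆ A₁ ∧
      (∀ x ∈ A₁, x ∈ F') ∧ (∀ x ∈ A₁, x ∉ M) ∧ (g = 1 ∨ ∃ x, x⁻¹ * g * x ∈ A₁) := by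
    by_cases hg : g = 1
    · exact ⟨A, hAf, le_rfl, fun x hx => hTF' x (Or.inr (Or.inl hx)), hA, Or.inl hg⟩
    · obtain ⟨x, hx⟩ := core_free bs a₁ a₂ h12 (M.subgroupOf F') hMfg hidx' ⟨g, hgF'⟩
        (fun e => hg (congrArg Subtype.val e))
      refine ⟨insert ((x : G)⁻¹ * g * x) A, hAf.insert _, Set.subset_insert _ _, ?_, ?_,
        Or.inr ⟨x, Or.inl rfl⟩⟩
      · rintro _ (rfl | hy)
        · exact mul_mem (mul_mem (inv_mem x.2) hgF') x.2
        · exact hTF' _ (Or.inr (Or.inl hy))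
      · rintro _ (rfl | hy)
        · exact hx
        · exact hA _ hy
  by_cases hc : (∀ i j, (xy i).1⁻¹ * (xy j).1 ∈ M → i = j) ∧
      ∀ i j, (xy i).2⁻¹ * (xy j).2 ∈ M → i = j
  swap
  · exact ⟨M, F', A₁, ⟨hMF.trans hFF', hM, hF', hFF' haF, hFF' hbF, hidx', hA₁f, hA₁M⟩, le_rfl,
      hAA₁, hA₁g, fun h1 h2 => absurd ⟨h1, h2⟩ hc⟩
  obtain ⟨N, hMN, hNfg, hNidx, hAN, s, hs⟩ := step_tuple bs a₁ a₂ h12 (M.subgroupOf F') hMfg hidx'
    (hA₁f.preimage (f := F'.subtype) F'.subtype_injective.injOn).toFinset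
    (fun x hx => hA₁M _ (by simpa using hx))
    (fun i => ⟨(xy i).1, hxF' i⟩) (fun i => ⟨(xy i).2, hyF' i⟩) hc.1 hc.2
  refine ⟨N.map F'.subtype, F', A₁, ⟨Subgroup.map_subtype_le N, ?_, hF', hFF' haF, hFF' hbF, ?_,
    hA₁f, ?_⟩, ?_, hAA₁, hA₁g, fun _ _ => ⟨s, fun i => ⟨_, hs i, rfl⟩⟩⟩
  · rw [Subgroup.fg_iff_submonoid_fg] at hNfg ⊢
    exact hNfg.map F'.subtype
  · show (Subgroup.comap F'.subtype (N.map F'.subtype)).index = 0
    rw [Subgroup.comap_map_eq_self_of_injective F'.subtype_injective]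
    exact hNidx
  · rintro _ hx ⟨x, hxN, rfl⟩
    exact hAN x (by simpa using hx) hxN
  · intro x hx
    exact ⟨⟨x, hFF' (hMF hx)⟩, hMN hx, rfl⟩

theorem LocFree.infinite_closure {G : Type u} [Group G] (hG : LocFree G) {a b : G}
    (hab : a * b ≠ b * a) : Infinite (Subgroup.closure ({a, b} : Set G)) := by
  have hfg : (Subgroup.closure ({a, b} : Set G)).FG :=
    (Subgroup.fg_iff _).mpr ⟨_, rfl, Set.toFinite _⟩
  have haF : a ∈ Subgroup.closure ({a, b} : Set G) := Subgroup.subset_closure (by simp)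
  have hbF : b ∈ Subgroup.closure ({a, b} : Set G) := Subgroup.subset_closure (by simp)
  obtain ⟨X, _, ⟨bs⟩⟩ := hG.exists_basis _ hfg
  obtain ⟨a₁, -, -⟩ := exists_two_of_not_comm bs ⟨a, haF⟩ ⟨b, hbF⟩
    (fun e => hab (congrArg Subtype.val e))
  exact infinite_of_basis bs a₁

/-- The countable case. -/
theorem LocFree.exists_done_countable {G : Type u} [Group G] [Countable G] (hG : LocFree G)
    {a b : G} (hab : a * b ≠ b * a) :
    ∃ (M : Subgroup G) (A : Set G), (∀ g ∈ A, g ∉ M) ∧ ∀ z, Done z M A := by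
  classical
  have : Nonempty (HTask G) := ⟨(1, ⟨0, Fin.elim0⟩)⟩
  obtain ⟨e, he⟩ := exists_surjective_nat (HTask G)
  have h0 : InvT a b ⊥ (Subgroup.closure {a, b}) ∅ := by
    refine ⟨bot_le, Subgroup.FG.bot, (Subgroup.fg_iff _).mpr ⟨_, rfl, Set.toFinite _⟩,
      Subgroup.subset_closure (by simp), Subgroup.subset_closure (by simp), ?_,
      Set.finite_empty, by simp⟩
    have := hG.infinite_closure hab
    rw [Subgroup.relIndex_bot_left]
    exact Nat.card_eq_zero_of_infinite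
  let St := {p : Subgroup G × Subgroup G × Set G // InvT a b p.1 p.2.1 p.2.2}
  have hstep : ∀ (s : St) (z : HTask G), ∃ s' : St, s.1.1 ≤ s'.1.1 ∧ s.1.2.2 ⊆ s'.1.2.2 ∧
      Done z s'.1.1 s'.1.2.2 := by
    intro s z
    obtain ⟨M', F', A', h1, h2, h3, h4⟩ := hG.stepT_countable hab s.1.1 s.1.2.1 s.1.2.2 s.2 z
    exact ⟨⟨(M', F', A'), h1⟩, h2, h3, h4⟩
  choose nx hnx1 hnx2 hnx3 using hstep
  let sq : ℕ → St := fun n => Nat.rec ⟨(⊥, Subgroup.closure {a, b}, ∅), h0⟩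
    (fun k s => nx s (e k)) n
  have hmono : Monotone fun n => (sq n).1.1 :=
    monotone_nat_of_le_succ fun n => hnx1 (sq n) (e n)
  have hmono2 : Monotone fun n => (sq n).1.2.2 :=
    monotone_nat_of_le_succ fun n => hnx2 (sq n) (e n)
  refine ⟨⨆ n, (sq n).1.1, ⋃ n, (sq n).1.2.2, ?_, ?_⟩
  · intro g hg h
    obtain ⟨m, hm⟩ := Set.mem_iUnion.mp hg
    obtain ⟨n, hn⟩ := (Subgroup.mem_iSup_of_directed hmono.directed_le).mp h
    exact (sq (max m n)).2.2.2.2.2.2.2.2 g (hmono2 (le_max_left m n) hm)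
      (hmono (le_max_right m n) hn)
  · intro z
    obtain ⟨n, rfl⟩ := he z
    exact (hnx3 (sq n) (e n)).mono (le_iSup (fun n => (sq n).1.1) (n + 1))
      (Set.subset_iUnion (fun n => (sq n).1.2.2) (n + 1))

end Pool.Agent.Lib.MP_f7bfdf_al
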