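import Mathlib
import Pool.Agent.Lib.MP_f7bfdf_al.HTCount

set_option autoImplicit false

open Cardinal

namespace Pool.Agent.Lib.MP_f7bfdf_al

universe u

/-- A transfinite construction along the least well-order of an uncountable type. -/
theorem transfinite_build {G Y : Type u} (hunc : ℵ₀ < Cardinal.mk G) (Inv : Set Y → Prop)
    (D : G → Set Y → Prop) (hanti : ∀ U U', U ⊆ U' → Inv U' → Inv U)
    (hfinit : ∀ U, ¬ Inv U → ∃ A, A.Finite ∧ A ⊆ U ∧ ¬ Inv A) (h0 : Inv ∅)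
    (hD : ∀ z U U', U ⊆ U' → D z U → D z U')
    (hstep0 : ∀ z (U : Set Y), Cardinal.mk U < Cardinal.mk G → Inv U →
      ∃ T : Set Y, T.Finite ∧ Inv (U ∪ T) ∧ D z (U ∪ T)) :
    ∃ U, Inv U ∧ ∀ z, D z U := by
  classical
  obtain ⟨r, hr, hord⟩ := Cardinal.exists_ord_eq G
  have hstep : ∀ (z : G) (S : Set Y), ∃ T : Set Y, T.Finite ∧
      (Cardinal.mk S < Cardinal.mk G → Inv S → Inv (S ∪ T) ∧ D z (S ∪ T)) := by
    intro z S
    by_cases h : Cardinal.mk S < Cardinal.mk G ∧ Inv S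
    · obtain ⟨T, hT, h1, h2⟩ := hstep0 z S h.1 h.2
      exact ⟨T, hT, fun _ _ => ⟨h1, h2⟩⟩
    · exact ⟨∅, Set.finite_empty, fun h1 h2 => absurd ⟨h1, h2⟩ h⟩
  choose nx hnxfin hnx using hstep
  let f : G → Set Y := hr.wf.fix fun z rec => nx z (⋃ y : {y // r y z}, rec y.1 y.2)
  let U : G → Set Y := fun z => ⋃ y : {y // r y z}, f y.1
  have hf : ∀ z, f z = nx z (U z) := fun z => hr.wf.fix_eq _ z
  have hffin : ∀ z, (f z).Finite := fun z => by rw [hf]; exact hnxfin _ _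
  have hUc : ∀ z, Cardinal.mk (U z) < Cardinal.mk G := by
    intro z
    refine lt_of_le_of_lt (Cardinal.mk_iUnion_le _) ?_
    refine Cardinal.mul_lt_of_lt hunc.le (Cardinal.card_typein_lt z hord) ?_
    refine lt_of_le_of_lt (ciSup_le' fun y => ?_) hunc
    exact (hffin y.1).lt_aleph0.le
  have hfin : ∀ (A : Set Y), A.Finite → ∀ (p : G → Prop), (∀ x ∈ A, ∃ y, p y ∧ x ∈ f y) →
      A = ∅ ∨ ∃ y, p y ∧ A ⊆ U y ∪ f y := by
    intro A hA p
    induction A, hA using Set.Finite.induction_on with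
    | empty => intro _; exact Or.inl rfl
    | @insert a A _ _ ih =>
      intro h
      right
      obtain ⟨y, hpy, hay⟩ := h a (Or.inl rfl)
      rcases ih (fun x hx => h x (Or.inr hx)) with rfl | ⟨y', hpy', hA'⟩
      · exact ⟨y, hpy, by simpa using Or.inr hay⟩
      · rcases trichotomous_of r y y' with h1 | rfl | h1
        · refine ⟨y', hpy', Set.insert_subset ?_ hA'⟩
          exact Or.inl (Set.mem_iUnion.mpr ⟨⟨y, h1⟩, hay⟩)
        · exact ⟨y, hpy, Set.insert_subset (Or.inr hay) hA'⟩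
        · refine ⟨y, hpy, Set.insert_subset (Or.inr hay) ?_⟩
          intro x hx
          left
          rcases hA' hx with h2 | h2
          · obtain ⟨w, hw⟩ := Set.mem_iUnion.mp h2
            exact Set.mem_iUnion.mpr ⟨⟨w.1, trans_of r w.2 h1⟩, hw⟩
          · exact Set.mem_iUnion.mpr ⟨⟨y', h1⟩, h2⟩
  have hmain : ∀ z, Inv (U z ∪ f z) ∧ D z (U z ∪ f z) := by
    intro z
    induction z using hr.wf.induction with
    | _ z ih =>
      rw [hf]
      refine hnx z (U z) (hUc z) ?_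
      by_contra hgc
      obtain ⟨A, hA, hAU, hgA⟩ := hfinit _ hgc
      rcases hfin A hA (fun y => r y z) (fun x hx => by
          obtain ⟨y, hy⟩ := Set.mem_iUnion.mp (hAU hx)
          exact ⟨y.1, y.2, hy⟩) with rfl | ⟨y, hy, hAy⟩
      · exact hgA h0
      · exact hgA (hanti _ _ hAy (ih y hy).1)
  refine ⟨⋃ y, f y, ?_, fun z => hD z _ _ ?_ (hmain z).2⟩
  · by_contra hgc
    obtain ⟨A, hA, hAU, hgA⟩ := hfinit _ hgc
    rcases hfin A hA (fun _ => True) (fun x hx => by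
        obtain ⟨y, hy⟩ := Set.mem_iUnion.mp (hAU hx)
        exact ⟨y, trivial, hy⟩) with rfl | ⟨y, -, hAy⟩
    · exact hgA h0
    · exact hgA (hanti _ _ hAy (hmain y).1)
  · rintro x (hx | hx)
    · obtain ⟨y, hy⟩ := Set.mem_iUnion.mp hx
      exact Set.mem_iUnion.mpr ⟨y.1, hy⟩
    · exact Set.mem_iUnion.mpr ⟨z, hx⟩

/-- Over a small set there is an element that is free over a subgroup containing it. -/
theorem LocFree.exists_free {G : Type u} [Group G] (hG : LocFree G) (hunc : ℵ₀ < Cardinal.mk G)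
    (S : Set G) (hS : Cardinal.mk S < Cardinal.mk G) :
    ∃ (B : Subgroup G) (s : G), S ⊆ B ∧ ∀ E : Set G, E.Finite → E ⊆ B →
      ∀ (Ω : Type u) (φ : G →* Equiv.Perm Ω) (q : Equiv.Perm Ω),
        ∃ (K : Subgroup G) (ψ : K →* Equiv.Perm Ω), E ⊆ K ∧ s ∈ K ∧
          (∀ x : K, x.1 ∈ E → ψ x = φ x) ∧ ∀ x : K, x.1 = s → ψ x = q := by
  classical
  obtain ⟨B, hSB, hBc, hBcl⟩ := exists_closed S
  have hBlt : Cardinal.mk B < Cardinal.mk G := lt_of_le_of_lt hBc (max_lt hS hunc)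
  have : ∃ s, s ∉ B := by
    by_contra h
    push Not at h
    have : Cardinal.mk G ≤ Cardinal.mk B :=
      Cardinal.mk_le_of_injective (f := fun x => (⟨x, h x⟩ : B))
        (fun x y hxy => congrArg Subtype.val hxy)
    exact absurd hBlt (not_lt.mpr this)
  obtain ⟨s, hs⟩ := this
  refine ⟨B, s, hSB, fun E hE hEB Ω φ q => ?_⟩
  obtain ⟨𝓕₀, h𝓕₀, hN⟩ := hG.noetherian {f | f ∈ Words (B : Set G) ∧ f s = 1}
    (fun f hf => Words.mono (Set.subset_univ _) hf.1)
  obtain ⟨y, hyB, hy⟩ := hBcl 𝓕₀ (fun f hf => (h𝓕₀ hf).1) ⟨s, fun f hf => (h𝓕₀ hf).2⟩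
  let H : Subgroup G := Subgroup.closure (insert y E)
  have hHfg : H.FG := (Subgroup.fg_iff H).mpr ⟨_, rfl, hE.insert y⟩
  have hHB : H ≤ B := by
    refine (Subgroup.closure_le B).mpr ?_
    rintro x (rfl | hx)
    · exact hyB
    · exact hEB hx
  have hEH : ∀ x ∈ E, x ∈ H := fun x hx => Subgroup.subset_closure (Or.inr hx)
  obtain ⟨K, ψ, hHK, hsK, hψH, hψs⟩ := hG.free_ext H hHfg s y (Subgroup.subset_closure (Or.inl rfl))
    (fun h => hs (h ▸ hyB)) (fun f hf hfs => hN y hy f ⟨Words.mono hHB hf, hfs⟩) φ q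
  exact ⟨K, ψ, fun x hx => hHK (hEH x hx), hsK, fun x hx => hψH x (hEH _ hx), hψs⟩

theorem lt_union_finite {G : Type u} (hunc : ℵ₀ < Cardinal.mk G) {S T : Set G}
    (hS : Cardinal.mk S < Cardinal.mk G) (hT : T.Finite) :
    Cardinal.mk (S ∪ T : Set G) < Cardinal.mk G :=
  lt_of_le_of_lt (Cardinal.mk_union_le _ _)
    (Cardinal.add_lt_of_lt hunc.le hS (hT.lt_aleph0.trans hunc))

theorem LocFree.conj_uncountable {G : Type u} [Group G] (hG : LocFree G)
    (hunc : ℵ₀ < Cardinal.mk G) (S : Set G) (hS : Cardinal.mk S < Cardinal.mk G) (g : G)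
    (hg : g ≠ 1) : ∃ x, x⁻¹ * g * x ∉ Subgroup.closure S := by
  classical
  obtain ⟨B, s, hSB, hB⟩ := hG.exists_free hunc (S ∪ {g})
    (lt_union_finite hunc hS (Set.finite_singleton g))
  refine ⟨s, fun hm => ?_⟩
  have hmB : s⁻¹ * g * s ∈ B :=
    (Subgroup.closure_le B).mpr (fun x hx => hSB (Or.inl hx)) hm
  have key : ∀ q : Equiv.Perm G, q⁻¹ (g * q 1) = s⁻¹ * g * s := by
    intro q
    obtain ⟨K, ψ, hEK, hsK, hψE, hψs⟩ := hB {g, s⁻¹ * g * s} (Set.toFinite _) (by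
      rintro x (rfl | rfl)
      · exact hSB (Or.inr rfl)
      · exact hmB) G (MulAction.toPermHom G G) q
    have hgK : g ∈ K := hEK (Or.inl rfl)
    have h1 := hψE ((⟨s, hsK⟩ : K)⁻¹ * ⟨g, hgK⟩ * ⟨s, hsK⟩) (Or.inr (by simp))
    rw [map_mul, map_mul, map_inv, hψs ⟨s, hsK⟩ rfl, hψE ⟨g, hgK⟩ (Or.inl rfl)] at h1
    simpa using DFunLike.congr_fun h1 1
  have : Infinite G := Cardinal.infinite_iff.mpr hunc.le
  obtain ⟨w, hw⟩ := Infinite.exists_notMem_finset ({1, g} : Finset G)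
  simp only [Finset.mem_insert, Finset.mem_singleton, not_or] at hw
  have h1 := key 1
  have h2 := key (Equiv.swap g w)
  rw [Equiv.swap_apply_of_ne_of_ne hg.symm (Ne.symm hw.1), ← h1] at h2
  simp at h2
  exact hw.2 h2

theorem LocFree.tuple_uncountable {G : Type u} [Group G] (hG : LocFree G)
    (hunc : ℵ₀ < Cardinal.mk G) (S A : Set G) (hS : Cardinal.mk S < Cardinal.mk G)
    (hA : Cardinal.mk A < Cardinal.mk G) (hAS : ∀ a ∈ A, a ∉ Subgroup.closure S) {k : ℕ}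
    (x y : Fin k → G) (hx : ∀ i j, (x i)⁻¹ * x j ∈ Subgroup.closure S → i = j)
    (hy : ∀ i j, (y i)⁻¹ * y j ∈ Subgroup.closure S → i = j) :
    ∃ s, ∀ a ∈ A, a ∉ Subgroup.closure (S ∪ Set.range fun i => (y i)⁻¹ * s * x i) := by
  classical
  set M := Subgroup.closure S with hM
  obtain ⟨B, s, hSB, hB⟩ := hG.exists_free hunc ((S ∪ A) ∪ (Set.range x ∪ Set.range y))
    (lt_union_finite hunc (lt_of_le_of_lt (Cardinal.mk_union_le _ _)
      (Cardinal.add_lt_of_lt hunc.le hS hA)) ((Set.finite_range x).union (Set.finite_range y)))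
  refine ⟨s, fun a ha hac => ?_⟩
  obtain ⟨S₁, hS₁, hS₁S, ha₁⟩ := exists_finite_subset_of_mem_closure hac
  let x₀ : G ⧸ M := ((1 : G) : G ⧸ M)
  have hfix : ∀ a : G, a • x₀ = x₀ ↔ a ∈ M := by
    intro a
    show ((a * 1 : G) : G ⧸ M) = ((1 : G) : G ⧸ M) ↔ _
    rw [eq_comm, QuotientGroup.eq]
    simp
  have hinj : ∀ c d : G, c • x₀ = d • x₀ → c⁻¹ * d ∈ M := by
    intro c d h
    refine (hfix _).mp ?_
    rw [mul_smul, ← h, inv_smul_smul]
  obtain ⟨q, hq⟩ := Equiv.Perm.exists_extending_pair (fun i => x i • x₀) (fun i => y i • x₀)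
    (fun i j h => hx i j (hinj _ _ h)) (fun i j h => hy i j (hinj _ _ h))
  obtain ⟨K, ψ, hEK, hsK, hψE, hψs⟩ := hB (insert a ((S₁ ∩ S) ∪ (Set.range x ∪ Set.range y)))
    (((hS₁.inter_of_left S).union ((Set.finite_range x).union (Set.finite_range y))).insert a) (by
      rintro c (rfl | hc | hc)
      · exact hSB (Or.inl (Or.inr ha))
      · exact hSB (Or.inl (Or.inl hc.2))
      · exact hSB (Or.inr hc)) (G ⧸ M) (MulAction.toPermHom G (G ⧸ M)) q
  let P : Subgroup G := ((MulAction.stabilizer (Equiv.Perm (G ⧸ M)) x₀).comap ψ).map K.subtype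
  have hP : ∀ c : K, (c : G) ∈ P ↔ ψ c x₀ = x₀ := by
    intro c
    constructor
    · rintro ⟨c', hc', hcc⟩
      have : c' = c := Subtype.ext hcc
      rw [← this]
      exact hc'
    · intro hc
      exact ⟨c, hc, rfl⟩
  have hle : Subgroup.closure S₁ ≤ P := by
    refine (Subgroup.closure_le P).mpr ?_
    intro c hc
    rcases hS₁S hc with hcS | ⟨i, rfl⟩
    · have hcE : c ∈ insert a ((S₁ ∩ S) ∪ (Set.range x ∪ Set.range y)) :=
        Or.inr (Or.inl ⟨hc, hcS⟩)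
      refine (hP ⟨c, hEK hcE⟩).mpr ?_
      rw [hψE _ hcE]
      exact (hfix c).mpr (Subgroup.subset_closure hcS)
    · have hxE : x i ∈ insert a ((S₁ ∩ S) ∪ (Set.range x ∪ Set.range y)) :=
        Or.inr (Or.inr (Or.inl ⟨i, rfl⟩))
      have hyE : y i ∈ insert a ((S₁ ∩ S) ∪ (Set.range x ∪ Set.range y)) :=
        Or.inr (Or.inr (Or.inr ⟨i, rfl⟩))
      refine (hP ((⟨y i, hEK hyE⟩ : K)⁻¹ * ⟨s, hsK⟩ * ⟨x i, hEK hxE⟩)).mpr ?_
      rw [map_mul, map_mul, map_inv, hψE ⟨y i, hEK hyE⟩ hyE, hψE ⟨x i, hEK hxE⟩ hxE,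
        hψs ⟨s, hsK⟩ rfl]
      simp [hq i]
  have := (hP ⟨a, hEK (Or.inl rfl)⟩).mp (hle ha₁)
  rw [hψE _ (Or.inl rfl)] at this
  exact hAS a ha ((hfix a).mp this)

/-- The uncountable case. -/
theorem LocFree.exists_done_uncountable {G : Type u} [Group G] (hG : LocFree G)
    (hunc : ℵ₀ < Cardinal.mk G) :
    ∃ (M : Subgroup G) (A : Set G), (∀ g ∈ A, g ∉ M) ∧ ∀ z, Done z M A := by
  classical
  have : Infinite G := Cardinal.infinite_iff.mpr hunc.le
  have : Nonempty (HTask G) := ⟨(1, ⟨0, Fin.elim0⟩)⟩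
  obtain ⟨e, he⟩ : ∃ e : G → HTask G, Function.Surjective e := by
    have h1 : Cardinal.mk (HTask G) ≤ Cardinal.mk G := by
      have h2 : Cardinal.mk (Σ n : ℕ, Fin n → G × G) = Cardinal.mk G := by
        rw [← Cardinal.mk_congr (List.equivSigmaTuple (α := G × G)), Cardinal.mk_list_eq_mk]
        simp
      simp only [HTask, Cardinal.mk_prod, h2, Cardinal.lift_id]
      simp
    obtain ⟨ι⟩ := (Cardinal.le_def _ _).mp h1
    exact ⟨Function.invFun ι, Function.invFun_surjective ι.injective⟩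
  let gens : Set (G ⊕ G) → Set G := fun U => Sum.inl ⁻¹' U
  let prot : Set (G ⊕ G) → Set G := fun U => Sum.inr ⁻¹' U
  obtain ⟨U, hU1, hU2⟩ := transfinite_build (G := G) (Y := G ⊕ G) hunc
    (fun U => ∀ g ∈ prot U, g ∉ Subgroup.closure (gens U))
    (fun z U => Done (e z) (Subgroup.closure (gens U)) (prot U))
    (fun U U' h h' g hg hc => h' g (h hg) (Subgroup.closure_mono (Set.preimage_mono h) hc))
    (by
      intro U hU
      push Not at hU
      obtain ⟨g, hg, hc⟩ := hU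
      obtain ⟨S₀, hS₀, hS₀U, hg₀⟩ := exists_finite_subset_of_mem_closure hc
      refine ⟨insert (Sum.inr g) (Sum.inl '' S₀), (hS₀.image _).insert _, ?_, fun h => ?_⟩
      · rintro _ (rfl | ⟨c, hc, rfl⟩)
        · exact hg
        · exact hS₀U hc
      · exact h g (Or.inl rfl) (Subgroup.closure_mono (fun c hc => Or.inr ⟨c, hc, rfl⟩) hg₀))
    (by simp [prot])
    (fun z U U' h h' => h'.mono (Subgroup.closure_mono (Set.preimage_mono h)) (Set.preimage_mono h))
    (by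
      intro z U hU hI
      obtain ⟨g, k, xy⟩ := e z
      have hS : Cardinal.mk (gens U) < Cardinal.mk G :=
        (Cardinal.mk_preimage_of_injective _ _ Sum.inl_injective).trans_lt hU
      have hA : Cardinal.mk (prot U) < Cardinal.mk G :=
        (Cardinal.mk_preimage_of_injective _ _ Sum.inr_injective).trans_lt hU
      obtain ⟨A₁, hA₁f, hA₁M, hA₁g⟩ : ∃ A₁ : Set G, A₁.Finite ∧
          (∀ c ∈ A₁, c ∉ Subgroup.closure (gens U)) ∧ (g = 1 ∨ ∃ c, c⁻¹ * g * c ∈ A₁) := by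
        by_cases hg : g = 1
        · exact ⟨∅, Set.finite_empty, by simp, Or.inl hg⟩
        · obtain ⟨c, hc⟩ := hG.conj_uncountable hunc _ hS g hg
          exact ⟨{c⁻¹ * g * c}, Set.finite_singleton _, by simpa using hc, Or.inr ⟨c, rfl⟩⟩
      have hI' : ∀ c ∈ prot U ∪ A₁, c ∉ Subgroup.closure (gens U) := by
        rintro c (hc | hc)
        · exact hI c hc
        · exact hA₁M c hc
      have e1 : ∀ T : Set G, gens (U ∪ (Sum.inl '' T ∪ Sum.inr '' A₁)) = gens U ∪ T := by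
        intro T
        ext c
        simp [gens]
      have e2 : ∀ T : Set G, prot (U ∪ (Sum.inl '' T ∪ Sum.inr '' A₁)) = prot U ∪ A₁ := by
        intro T
        ext c
        simp [prot]
      have hg' : g = 1 ∨ ∃ c, c⁻¹ * g * c ∈ prot U ∪ A₁ :=
        hA₁g.imp_right fun ⟨c, hc⟩ => ⟨c, Or.inr hc⟩
      by_cases hc : (∀ i j, (xy i).1⁻¹ * (xy j).1 ∈ Subgroup.closure (gens U) → i = j) ∧
          ∀ i j, (xy i).2⁻¹ * (xy j).2 ∈ Subgroup.closure (gens U) → i = j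
      · obtain ⟨s, hs⟩ := hG.tuple_uncountable hunc _ _ hS (lt_union_finite hunc hA hA₁f) hI'
          (fun i => (xy i).1) (fun i => (xy i).2) hc.1 hc.2
        refine ⟨Sum.inl '' (Set.range fun i => (xy i).2⁻¹ * s * (xy i).1) ∪ Sum.inr '' A₁,
          ((Set.finite_range _).image _).union (hA₁f.image _), ?_, ?_⟩
        · rw [e1, e2]
          exact hs
        · rw [e1, e2]
          exact ⟨hg', fun _ _ => ⟨s, fun i => Subgroup.subset_closure (Or.inr ⟨i, rfl⟩)⟩⟩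
      · refine ⟨Sum.inl '' (∅ : Set G) ∪ Sum.inr '' A₁,
          (Set.finite_empty.image _).union (hA₁f.image _), ?_, ?_⟩
        · rw [e1, e2, Set.union_empty]
          exact hI'
        · rw [e1, e2, Set.union_empty]
          exact ⟨hg', fun h1 h2 => absurd ⟨h1, h2⟩ hc⟩)
  refine ⟨_, _, hU1, fun z => ?_⟩
  obtain ⟨w, rfl⟩ := he z
  exact hU2 w

theorem LocFree.exists_done {G : Type u} [Group G] (hG : LocFree G) {a b : G}
    (hab : a * b ≠ b * a) :
    ∃ (M : Subgroup G) (A : Set G), (∀ g ∈ A, g ∉ M) ∧ ∀ z, Done z M A := by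
  rcases le_or_gt (Cardinal.mk G) Cardinal.aleph0 with h | h
  · have : Countable G := Cardinal.mk_le_aleph0_iff.mp h
    exact hG.exists_done_countable hab
  · exact hG.exists_done_uncountable h

end Pool.Agent.Lib.MP_f7bfdf_al
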